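import Mathlib

namespace Pool.Agent.Helper228.HC

/-- The hypercube `{-1,1}^n`; the type `ℤˣ` of units of `ℤ` is `{1,-1}`. -/
abbrev Cube (n : ℕ) := Fin n → ℤˣ

/-- Expectation under the uniform probability measure on the cube. -/
noncomputable def mean {n : ℕ} (g : Cube n → ℝ) : ℝ := (∑ x, g x) / 2 ^ n

/-- The norm `‖f‖_p = (E|f|^p)^{1/p}`. -/
noncomputable def lpNorm {n : ℕ} (p : ℝ) (f : Cube n → ℝ) : ℝ :=
  (mean fun x => |f x| ^ p) ^ (1 / p)

/-- The monomial (Walsh function) `∏_{i ∈ S} x_i`. -/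
def walsh {n : ℕ} (S : Finset (Fin n)) (x : Cube n) : ℝ := ∏ i ∈ S, (((x i : ℤˣ) : ℤ) : ℝ)

/-- The Fourier–Walsh coefficient `f̂(S) = E[f(x) ∏_{i ∈ S} x_i]`. -/
noncomputable def fourier {n : ℕ} (f : Cube n → ℝ) (S : Finset (Fin n)) : ℝ :=
  mean fun x => f x * walsh S x

open Classical in
/-- The degree: the largest `|S|` with `f̂(S) ≠ 0` (and `0` if there is none). -/
noncomputable def degree {n : ℕ} (f : Cube n → ℝ) : ℕ :=
  (Finset.univ.filter fun S : Finset (Fin n) => fourier f S ≠ 0).sup Finset.card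

end Pool.Agent.Helper228.HC
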