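import Mathlib
import Pool.Agent.Helper228.HC.Defs

open MeasureTheory ProbabilityTheory Filter Topology Real

namespace Pool.Agent.Helper228.HC

noncomputable section

/-- the normalised sum -/
def XX (n : ℕ) (x : Cube n) : ℝ := (∑ i, (((x i : ℤˣ) : ℤ) : ℝ)) / Real.sqrt n

/-- law of the normalised sum -/
def nu (n : ℕ) : Measure ℝ := ∑ x : Cube n, ENNReal.ofReal (1 / 2 ^ n) • Measure.dirac (XX n x)

lemma card_cube (n : ℕ) : Fintype.card (Cube n) = 2 ^ n := by
  simp [Cube]

instance (n : ℕ) : IsProbabilityMeasure (nu n) := by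
  constructor
  unfold nu
  rw [Measure.finsetSum_apply]
  simp only [Measure.smul_apply, measure_univ, smul_eq_mul, mul_one, Finset.sum_const, Finset.card_univ,
    card_cube, nsmul_eq_mul]
  rw [one_div, ENNReal.ofReal_inv_of_pos (by positivity)]
  push_cast
  rw [ENNReal.ofReal_pow (by norm_num)]
  norm_num
  apply ENNReal.mul_inv_cancel
  · positivity
  · simp

lemma integral_nu {E : Type*} [NormedAddCommGroup E] [NormedSpace ℝ E] [CompleteSpace E] (n : ℕ) (φ : ℝ → E) :
    ∫ x, φ x ∂(nu n) = (1 / 2 ^ n : ℝ) • ∑ x : Cube n, φ (XX n x) := by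
  unfold nu
  rw [integral_finsetSum_measure]
  · simp only [integral_smul_measure, integral_dirac]
    rw [Finset.smul_sum]
    apply Finset.sum_congr rfl
    intro x _
    rw [ENNReal.toReal_ofReal (by positivity)]
  · intro x _
    apply Integrable.smul_measure _ ENNReal.ofReal_ne_top
    exact integrable_dirac (by simp [enorm_lt_top])

lemma integral_nu_real (n : ℕ) (φ : ℝ → ℝ) :
    ∫ x, φ x ∂(nu n) = mean fun x : Cube n => φ (XX n x) := by
  rw [integral_nu]
  unfold mean
  rw [smul_eq_mul]; ring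

lemma sum_prod_cube {R : Type*} [CommRing R] (n : ℕ) (g : ℤˣ → R) :
    ∑ x : Cube n, ∏ i, g (x i) = (g 1 + g (-1)) ^ n := by
  have h := Finset.prod_univ_sum (fun _ : Fin n => (Finset.univ : Finset ℤˣ)) (fun _ ε => g ε)
  rw [Fintype.piFinset_univ] at h
  rw [← h]
  have h2 : ∑ j : ℤˣ, g j = g 1 + g (-1) := by
    rw [UnitsInt.univ, Finset.sum_pair (by decide)]
  simp [h2]

lemma charFun_nu (n : ℕ) (t : ℝ) : charFun (nu n) t = ((Real.cos (t / Real.sqrt n) ^ n : ℝ) : ℂ) := by
  rw [charFun_apply_real, integral_nu]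
  have h : ∀ x : Cube n, Complex.exp (t * (XX n x : ℝ) * Complex.I) =
      ∏ i, Complex.exp (((t / Real.sqrt n : ℝ) : ℂ) * (((x i : ℤˣ) : ℤ) : ℂ) * Complex.I) := by
    intro x
    rw [← Complex.exp_sum]
    congr 1
    unfold XX
    push_cast
    rw [Finset.sum_div, Finset.mul_sum, Finset.sum_mul]
    apply Finset.sum_congr rfl
    intro i _
    ring
  simp only [h]
  rw [sum_prod_cube n (fun ε => Complex.exp (((t / Real.sqrt n : ℝ) : ℂ) * ((ε : ℤ) : ℂ) * Complex.I))]
  have h2 : Complex.exp (((t / Real.sqrt n : ℝ) : ℂ) * (((1 : ℤˣ) : ℤ) : ℂ) * Complex.I) +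
      Complex.exp (((t / Real.sqrt n : ℝ) : ℂ) * (((-1 : ℤˣ) : ℤ) : ℂ) * Complex.I) =
      2 * ((Real.cos (t / Real.sqrt n) : ℝ) : ℂ) := by
    rw [Complex.ofReal_cos, Complex.two_cos]
    simp
  rw [h2, mul_pow, Complex.real_smul]
  push_cast
  field_simp

lemma tendsto_cos_pow (t : ℝ) :
    Tendsto (fun n : ℕ => Real.cos (t / Real.sqrt n) ^ n) atTop (𝓝 (Real.exp (-(t ^ 2 / 2)))) := by
  have h : Tendsto (fun n : ℕ => (1 + (Real.cos (t / Real.sqrt n) - 1)) ^ n) atTop
      (𝓝 (Real.exp (-(t ^ 2 / 2)))) := by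
    apply Real.tendsto_one_add_pow_exp_of_tendsto
    rw [tendsto_iff_norm_sub_tendsto_zero]
    have h0 : Tendsto (fun n : ℕ => (t ^ 4 * (5 / 96)) * (1 / (n : ℝ))) atTop (𝓝 0) := by
      have := (tendsto_one_div_atTop_nhds_zero_nat (𝕜 := ℝ)).const_mul (t ^ 4 * (5 / 96))
      simpa using this
    apply squeeze_zero' (Eventually.of_forall fun n => norm_nonneg _) _ h0
    obtain ⟨N, hN⟩ := exists_nat_ge (t ^ 2)
    filter_upwards [eventually_ge_atTop (max N 1)] with n hn
    have hn1 : (1 : ℝ) ≤ n := by exact_mod_cast (le_max_right N 1).trans hn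
    have hnN : t ^ 2 ≤ n := hN.trans (by exact_mod_cast (le_max_left N 1).trans hn)
    have hsq : Real.sqrt n ^ 2 = n := Real.sq_sqrt (by positivity)
    have hs0 : 0 < Real.sqrt n := by positivity
    have h1 : |t / Real.sqrt n| ≤ 1 := by
      rw [abs_div, abs_of_pos hs0, div_le_one hs0]
      apply abs_le_of_sq_le_sq _ hs0.le
      rw [hsq]; exact hnN
    have h2 := Real.cos_bound h1
    have h3 : (t / Real.sqrt n) ^ 2 = t ^ 2 / n := by rw [div_pow, hsq]
    have h4 : |t / Real.sqrt n| ^ 4 = t ^ 4 / n ^ 2 := by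
      have : |t / Real.sqrt n| ^ 4 = ((t / Real.sqrt n) ^ 2) ^ 2 := by
        rw [← sq_abs (t / Real.sqrt n)]; ring
      rw [this, h3]; field_simp
    rw [h3, h4] at h2
    have h5 : (n : ℝ) * (Real.cos (t / Real.sqrt n) - 1) - -(t ^ 2 / 2) =
        n * (Real.cos (t / Real.sqrt n) - (1 - t ^ 2 / n / 2)) := by
      field_simp
      ring
    rw [h5, Real.norm_eq_abs, abs_mul, abs_of_nonneg (by positivity : (0:ℝ) ≤ n)]
    calc (n : ℝ) * |Real.cos (t / Real.sqrt n) - (1 - t ^ 2 / n / 2)| ≤ n * (t ^ 4 / n ^ 2 * (5 / 96)) :=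
          mul_le_mul_of_nonneg_left h2 (by positivity)
      _ = t ^ 4 * (5 / 96) * (1 / n) := by field_simp
  simpa using h

def nuP (n : ℕ) : ProbabilityMeasure ℝ := ⟨nu n, inferInstance⟩

def gaP : ProbabilityMeasure ℝ := ⟨gaussianReal 0 1, inferInstance⟩

lemma coe_nuP (n : ℕ) : ((nuP n : ProbabilityMeasure ℝ) : Measure ℝ) = nu n := rfl

lemma coe_gaP : ((gaP : ProbabilityMeasure ℝ) : Measure ℝ) = gaussianReal 0 1 := rfl

/-- de Moivre–Laplace for bounded continuous functions. -/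
lemma tendsto_mean (φ : BoundedContinuousFunction ℝ ℝ) :
    Tendsto (fun n : ℕ => mean fun x : Cube n => φ (XX n x)) atTop
      (𝓝 (∫ x, φ x ∂(gaussianReal 0 1))) := by
  have h : Tendsto nuP atTop (𝓝 gaP) := by
    rw [ProbabilityMeasure.tendsto_iff_tendsto_charFun]
    intro t
    simp only [coe_nuP, coe_gaP]
    have e1 : charFun (gaussianReal 0 1) t = ((Real.exp (-(t ^ 2 / 2)) : ℝ) : ℂ) := by
      rw [charFun_gaussianReal]
      push_cast
      congr 1
      simp
    rw [e1]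
    simp only [charFun_nu]
    exact (Complex.continuous_ofReal.tendsto _).comp (tendsto_cos_pow t)
  rw [ProbabilityMeasure.tendsto_iff_forall_integral_tendsto] at h
  have := h φ
  simpa only [coe_nuP, coe_gaP, integral_nu_real] using this

end

end Pool.Agent.Helper228.HC
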