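import Mathlib

open Complex Metric Finset Real

namespace Pool.Agent.Helper228.HC

noncomputable section

/-- the point `a = 1/√3` -/
def aa : ℝ := 1 / Real.sqrt 3

lemma aa_sq : aa ^ 2 = 1 / 3 := by
  unfold aa
  rw [div_pow, Real.sq_sqrt (by norm_num)]
  norm_num

lemma aa_pos : 0 < aa := by
  unfold aa; positivity

lemma aa_lt : aa < 1 := by
  nlinarith [aa_sq, aa_pos]

/-- The Möbius map of the disc sending `0` to `a`. -/
def sg (z : ℂ) : ℂ := (z + aa) / (1 + aa * z)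

/-- The disc algebra. -/
abbrev AA (h : ℂ → ℂ) : Prop := DiffContOnCl ℂ h (ball 0 1)

lemma one_add_ne {q : ℝ} (hq0 : 0 ≤ q) (hq : q < 1) {s : ℂ} (hs : ‖s‖ ≤ 1) : 1 + (q : ℂ) * s ≠ 0 := by
  intro h
  have h1 : (q : ℂ) * s = -1 := by linear_combination h
  have h2 : ‖(q : ℂ) * s‖ = 1 := by rw [h1]; simp
  rw [norm_mul, Complex.norm_real, Real.norm_of_nonneg hq0] at h2
  nlinarith [norm_nonneg s]

lemma one_sub_ne {q : ℝ} (hq0 : 0 ≤ q) (hq : q < 1) {s : ℂ} (hs : ‖s‖ ≤ 1) : 1 - (q : ℂ) * s ≠ 0 := by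
  intro h
  have h1 : (q : ℂ) * s = 1 := by linear_combination -h
  have h2 : ‖(q : ℂ) * s‖ = 1 := by rw [h1]; simp
  rw [norm_mul, Complex.norm_real, Real.norm_of_nonneg hq0] at h2
  nlinarith [norm_nonneg s]

lemma normSq_add_real (q : ℝ) (z : ℂ) : ‖z + q‖ ^ 2 = ‖z‖ ^ 2 + 2 * q * z.re + q ^ 2 := by
  rw [← Complex.normSq_eq_norm_sq, ← Complex.normSq_eq_norm_sq, Complex.normSq_apply, Complex.normSq_apply]
  simp; ring

lemma normSq_one_add (q : ℝ) (z : ℂ) : ‖1 + q * z‖ ^ 2 = 1 + 2 * q * z.re + q ^ 2 * ‖z‖ ^ 2 := by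
  rw [← Complex.normSq_eq_norm_sq, ← Complex.normSq_eq_norm_sq, Complex.normSq_apply, Complex.normSq_apply]
  simp; ring

lemma norm_mob_le {q : ℝ} (hq0 : 0 ≤ q) (hq : q < 1) {z : ℂ} (hz : ‖z‖ ≤ 1) : ‖z + q‖ ≤ ‖1 + q * z‖ := by
  have h1 := normSq_add_real q z
  have h2 := normSq_one_add q z
  have h3 : ‖z + q‖ ^ 2 ≤ ‖1 + q * z‖ ^ 2 := by
    rw [h1, h2]
    have : 0 ≤ (1 - q ^ 2) * (1 - ‖z‖ ^ 2) := by
      apply mul_nonneg
      · nlinarith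
      · nlinarith [norm_nonneg z]
    nlinarith
  exact le_of_sq_le_sq h3 (norm_nonneg _)

lemma norm_mob_eq {q : ℝ} {z : ℂ} (hz : ‖z‖ = 1) : ‖z + q‖ = ‖1 + q * z‖ := by
  have h1 := normSq_add_real q z
  have h2 := normSq_one_add q z
  have h3 : ‖z + q‖ ^ 2 = ‖1 + q * z‖ ^ 2 := by
    rw [h1, h2, hz]; ring
  nlinarith [norm_nonneg (z + q), norm_nonneg (1 + q * z)]

lemma sg_zero : sg 0 = aa := by simp [sg]

lemma norm_sg_le {z : ℂ} (hz : ‖z‖ ≤ 1) : ‖sg z‖ ≤ 1 := by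
  unfold sg
  rw [norm_div]
  have h := norm_mob_le aa_pos.le aa_lt hz
  have h0 : 0 < ‖1 + (aa : ℂ) * z‖ := norm_pos_iff.2 (one_add_ne aa_pos.le aa_lt hz)
  rw [div_le_one h0]; exact h

lemma norm_sg_eq {z : ℂ} (hz : ‖z‖ = 1) : ‖sg z‖ = 1 := by
  unfold sg
  rw [norm_div]
  have h := norm_mob_eq (q := aa) hz
  have h0 : 0 < ‖1 + (aa : ℂ) * z‖ := norm_pos_iff.2 (one_add_ne aa_pos.le aa_lt hz.le)
  rw [h, div_self h0.ne']

lemma mem_cl {z : ℂ} (hz : z ∈ closure (ball (0:ℂ) 1)) : ‖z‖ ≤ 1 := by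
  rw [closure_ball _ one_ne_zero] at hz
  simpa using hz

lemma AA_id : AA (fun z => z) := Differentiable.diffContOnCl differentiable_id

lemma AA_const (c : ℂ) : AA (fun _ => c) := diffContOnCl_const

lemma AA.mul {f g : ℂ → ℂ} (hf : AA f) (hg : AA g) : AA (fun z => f z * g z) := by
  have := DiffContOnCl.smul hf hg
  simpa [smul_eq_mul] using this

lemma AA.add' {f g : ℂ → ℂ} (hf : AA f) (hg : AA g) : AA (fun z => f z + g z) :=
  DiffContOnCl.add hf hg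

lemma AA.sub' {f g : ℂ → ℂ} (hf : AA f) (hg : AA g) : AA (fun z => f z - g z) :=
  DiffContOnCl.sub hf hg

lemma AA.inv' {f : ℂ → ℂ} (hf : AA f) (h : ∀ z, ‖z‖ ≤ 1 → f z ≠ 0) : AA (fun z => (f z)⁻¹) :=
  DiffContOnCl.inv hf (fun z hz => h z (mem_cl hz))

lemma AA.div' {f g : ℂ → ℂ} (hf : AA f) (hg : AA g) (h : ∀ z, ‖z‖ ≤ 1 → g z ≠ 0) :
    AA (fun z => f z / g z) := by
  simp only [div_eq_mul_inv]
  exact hf.mul (hg.inv' h)

lemma AA.pow' {f : ℂ → ℂ} (hf : AA f) (n : ℕ) : AA (fun z => f z ^ n) := by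
  induction n with
  | zero => simpa using AA_const 1
  | succ n ih => simpa [pow_succ] using ih.mul hf

lemma AA_sg : AA sg := by
  unfold sg
  apply AA.div'
  · exact AA_id.add' (AA_const _)
  · exact (AA_const _).add' ((AA_const _).mul AA_id)
  · intro z hz
    exact one_add_ne aa_pos.le aa_lt hz

/-- Multilinear families in the variables `x_i = ω_i σ(z)` with coefficients in the disc algebra. -/
def Fam : (n : ℕ) → ((Fin n → ℤˣ) → ℂ → ℂ) → Prop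
  | 0, H => ∀ ω, AA (H ω)
  | n + 1, H => ∃ G0 G1 : (Fin n → ℤˣ) → ℂ → ℂ, Fam n G0 ∧ Fam n G1 ∧
      ∀ (ε : ℤˣ) (ω : Fin n → ℤˣ) (z : ℂ),
        H (Fin.cons ε ω) z = G0 ω z + ((ε : ℤ) : ℂ) * sg z * G1 ω z

lemma Fam.comb : ∀ (n : ℕ) {G G' : (Fin n → ℤˣ) → ℂ → ℂ} {α β : ℂ → ℂ}, AA α → AA β →
    Fam n G → Fam n G' → Fam n (fun ω z => α z * G ω z + β z * G' ω z)
  | 0, G, G', α, β, hα, hβ, hG, hG' => by
    intro ω
    exact (hα.mul (hG ω)).add' (hβ.mul (hG' ω))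
  | n + 1, G, G', α, β, hα, hβ, hG, hG' => by
    obtain ⟨G0, G1, h0, h1, h⟩ := hG
    obtain ⟨G0', G1', h0', h1', h'⟩ := hG'
    refine ⟨fun ω z => α z * G0 ω z + β z * G0' ω z, fun ω z => α z * G1 ω z + β z * G1' ω z,
      Fam.comb n hα hβ h0 h0', Fam.comb n hα hβ h1 h1', ?_⟩
    intro ε ω z
    simp only [h, h']
    ring

lemma Fam.aa : ∀ (n : ℕ) {G : (Fin n → ℤˣ) → ℂ → ℂ}, Fam n G → ∀ ω, AA (G ω)
  | 0, G, hG => hG
  | n + 1, G, hG => by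
    obtain ⟨G0, G1, h0, h1, h⟩ := hG
    intro ω
    have h2 : G ω = fun z => G0 (Fin.tail ω) z + (((ω 0 : ℤˣ) : ℤ) : ℂ) * sg z * G1 (Fin.tail ω) z := by
      funext z
      rw [← h, Fin.cons_self_tail]
    rw [h2]
    exact (Fam.aa n h0 _).add' (((AA_const _).mul AA_sg).mul (Fam.aa n h1 _))

def N1 (n : ℕ) (H : (Fin n → ℤˣ) → ℂ → ℂ) (z : ℂ) : ℝ := (∑ ω, ‖H ω z‖) / 2 ^ n

def N2 (n : ℕ) (H : (Fin n → ℤˣ) → ℂ → ℂ) : ℝ := Real.sqrt ((∑ ω, ‖H ω 0‖ ^ 2) / 2 ^ n)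

lemma N1_continuousOn {n : ℕ} {H : (Fin n → ℤˣ) → ℂ → ℂ} (h : ∀ ω, AA (H ω)) :
    ContinuousOn (N1 n H) (sphere 0 |(1:ℝ)|) := by
  unfold N1
  apply ContinuousOn.div_const
  apply continuousOn_finsetSum
  intro ω _
  apply ContinuousOn.norm
  apply (h ω).continuousOn_ball.mono
  rw [abs_one]
  exact sphere_subset_closedBall

lemma N1_integrable {n : ℕ} {H : (Fin n → ℤˣ) → ℂ → ℂ} (h : ∀ ω, AA (H ω)) :
    CircleIntegrable (N1 n H) 0 1 := by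
  apply ContinuousOn.circleIntegrable'
  exact N1_continuousOn h

lemma N2_zero_le {H : (Fin 0 → ℤˣ) → ℂ → ℂ} (h : ∀ ω, AA (H ω)) :
    N2 0 H ≤ circleAverage (N1 0 H) 0 1 := by
  have h1 : N2 0 H = ‖H default 0‖ := by
    unfold N2
    rw [Fintype.sum_unique, pow_zero, div_one, Real.sqrt_sq (norm_nonneg _)]
    congr 2
    exact Subsingleton.elim _ _
  have h2 : N1 0 H = fun z => ‖H default z‖ := by
    funext z
    unfold N1
    rw [Fintype.sum_unique, pow_zero, div_one]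
    congr 2
    exact Subsingleton.elim _ _
  rw [h1, h2]
  have h3 : circleAverage (H default) 0 1 = H default 0 := by
    apply DiffContOnCl.circleAverage
    rw [abs_one]
    exact h default
  rw [← h3]
  unfold circleAverage
  rw [norm_smul]
  have h4 : ‖∫ (θ : ℝ) in 0..2 * π, H default (circleMap 0 1 θ)‖ ≤ ∫ (θ : ℝ) in 0..2 * π, ‖H default (circleMap 0 1 θ)‖ := by
    apply intervalIntegral.norm_integral_le_integral_norm
    positivity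
  rw [smul_eq_mul, Real.norm_of_nonneg (by positivity)]
  exact mul_le_mul_of_nonneg_left h4 (by positivity)

/-- `q = a τ` -/
def rho (τ : ℝ) (s : ℂ) : ℂ := ((1 - τ) * (1 - τ / 3) : ℝ) / (1 - (aa * τ : ℝ) * s) ^ 2

def KU (τ : ℝ) (s : ℂ) : ℂ := (s + (aa * τ : ℝ)) / (1 + (aa * τ : ℝ) * s)

def KW (τ : ℝ) (s : ℂ) : ℂ := (τ : ℂ) * (1 - aa * s) * (s - aa) / (1 - (aa * τ : ℝ) * s) ^ 2

def MM (τ : ℝ) (s : ℂ) : ℂ :=
  (((1 + 4 * τ / 3 - τ ^ 2 : ℝ) : ℂ) + ((aa * τ) * (τ ^ 2 / 3 + 4 * τ / 3 - 3) : ℝ) * s) /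
    ((1 + (aa * τ : ℝ) * s) * (1 - (aa * τ : ℝ) * s) ^ 2)

lemma caa_sq : (aa : ℂ) ^ 2 = 1 / 3 := by
  rw [← Complex.ofReal_pow, aa_sq]; norm_num

lemma qt {τ : ℝ} (h0 : 0 ≤ τ) (h1 : τ ≤ 1) : 0 ≤ aa * τ ∧ aa * τ < 1 := by
  constructor
  · exact mul_nonneg aa_pos.le h0
  · nlinarith [aa_pos, aa_lt]

lemma s_mul_MM {τ : ℝ} (h0 : 0 ≤ τ) (h1 : τ ≤ 1) {s : ℂ} (hs : ‖s‖ ≤ 1) :
    s * MM τ s = KU τ s + KW τ s := by
  unfold MM KU KW
  have e1 := one_add_ne (qt h0 h1).1 (qt h0 h1).2 hs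
  have e2 := one_sub_ne (qt h0 h1).1 (qt h0 h1).2 hs
  rw [mul_div_assoc', div_add_div _ _ e1 (pow_ne_zero 2 e2)]
  congr 1
  push_cast
  have := caa_sq
  generalize (aa : ℂ) = a at *
  generalize (τ : ℂ) = t at *
  have h3 : a ^ 3 = a / 3 := by rw [pow_succ, this]; ring
  ring_nf
  simp only [h3, this]
  ring_nf

lemma KW_aa (τ : ℝ) : KW τ aa = 0 := by
  unfold KW; simp

lemma KU_aa {τ : ℝ} (h0 : 0 ≤ τ) : KU τ aa = ((aa * ((1 + τ) / (1 + τ / 3)) : ℝ) : ℂ) := by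
  unfold KU
  rw [← Complex.ofReal_add, ← Complex.ofReal_mul, ← Complex.ofReal_one, ← Complex.ofReal_add,
    ← Complex.ofReal_div]
  congr 1
  have h1 : aa * τ * aa = τ / 3 := by
    have := aa_sq
    nlinarith [this]
  rw [h1]
  field_simp

lemma rho_aa {τ : ℝ} (h0 : 0 ≤ τ) (h1 : τ ≤ 1) :
    rho τ aa = (((1 - τ) / (1 - τ / 3) : ℝ) : ℂ) := by
  unfold rho
  rw [← Complex.ofReal_mul, ← Complex.ofReal_one, ← Complex.ofReal_sub, ← Complex.ofReal_pow,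
    ← Complex.ofReal_div]
  congr 1
  have h1 : aa * τ * aa = τ / 3 := by
    have := aa_sq
    nlinarith [this]
  rw [h1]
  have : (1 - τ / 3) ≠ 0 := by linarith
  field_simp

lemma norm_KU {τ : ℝ} (h0 : 0 ≤ τ) (h1 : τ ≤ 1) {s : ℂ} (hs : ‖s‖ = 1) : ‖KU τ s‖ = 1 := by
  unfold KU
  rw [norm_div, norm_mob_eq hs, div_self]
  exact (norm_pos_iff.2 (one_add_ne (qt h0 h1).1 (qt h0 h1).2 hs.le)).ne'

lemma norm_KW_add_rho {τ : ℝ} (h0 : 0 ≤ τ) (h1 : τ ≤ 1) {s : ℂ} (hs : ‖s‖ = 1) :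
    ‖KW τ s‖ + ‖rho τ s‖ = 1 := by
  unfold KW rho
  have e2 := one_sub_ne (qt h0 h1).1 (qt h0 h1).2 hs.le
  rw [norm_div, norm_div, norm_mul, norm_mul, norm_pow, ← add_div]
  have n1 : ‖s - (aa : ℂ)‖ = ‖1 - (aa : ℂ) * s‖ := by
    have := norm_mob_eq (q := -aa) hs
    simpa [sub_eq_add_neg] using this
  have n2 : ‖1 - (aa : ℂ) * s‖ ^ 2 = 1 - 2 * aa * s.re + aa ^ 2 := by
    have := normSq_one_add (-aa) s
    rw [hs] at this
    have h3 : 1 - (aa : ℂ) * s = 1 + ((-aa : ℝ) : ℂ) * s := by push_cast; ring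
    rw [h3, this]; ring
  have n3 : ‖1 - ((aa * τ : ℝ) : ℂ) * s‖ ^ 2 = 1 - 2 * (aa * τ) * s.re + (aa * τ) ^ 2 := by
    have := normSq_one_add (-(aa * τ)) s
    rw [hs] at this
    have h3 : 1 - ((aa * τ : ℝ) : ℂ) * s = 1 + ((-(aa * τ) : ℝ) : ℂ) * s := by push_cast; ring
    rw [h3, this]; ring
  have n4 : 0 < ‖1 - ((aa * τ : ℝ) : ℂ) * s‖ ^ 2 := by
    have := norm_pos_iff.2 e2
    positivity
  rw [div_eq_one_iff_eq n4.ne', n3, n1, mul_assoc, ← pow_two, n2, Complex.norm_real, Complex.norm_real,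
    Real.norm_of_nonneg h0, Real.norm_of_nonneg (mul_nonneg (by linarith) (by linarith))]
  have := aa_sq
  rw [mul_pow, this]
  ring

lemma AA_rho {τ : ℝ} (h0 : 0 ≤ τ) (h1 : τ ≤ 1) : AA (fun z => rho τ (sg z)) := by
  unfold rho
  apply AA.div' (AA_const _)
  · exact ((AA_const _).sub' ((AA_const _).mul AA_sg)).pow' 2
  · intro z hz
    exact pow_ne_zero 2 (one_sub_ne (qt h0 h1).1 (qt h0 h1).2 (norm_sg_le hz))

lemma AA_KU {τ : ℝ} (h0 : 0 ≤ τ) (h1 : τ ≤ 1) : AA (fun z => KU τ (sg z)) := by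
  unfold KU
  apply AA.div'
  · exact AA_sg.add' (AA_const _)
  · exact (AA_const _).add' ((AA_const _).mul AA_sg)
  · intro z hz
    exact one_add_ne (qt h0 h1).1 (qt h0 h1).2 (norm_sg_le hz)

lemma AA_KW {τ : ℝ} (h0 : 0 ≤ τ) (h1 : τ ≤ 1) : AA (fun z => KW τ (sg z)) := by
  unfold KW
  apply AA.div'
  · exact ((AA_const _).mul ((AA_const _).sub' ((AA_const _).mul AA_sg))).mul (AA_sg.sub' (AA_const _))
  · exact ((AA_const _).sub' ((AA_const _).mul AA_sg)).pow' 2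
  · intro z hz
    exact pow_ne_zero 2 (one_sub_ne (qt h0 h1).1 (qt h0 h1).2 (norm_sg_le hz))

lemma AA_MM {τ : ℝ} (h0 : 0 ≤ τ) (h1 : τ ≤ 1) : AA (fun z => MM τ (sg z)) := by
  unfold MM
  apply AA.div'
  · exact (AA_const _).add' ((AA_const _).mul AA_sg)
  · exact ((AA_const _).add' ((AA_const _).mul AA_sg)).mul
      (((AA_const _).sub' ((AA_const _).mul AA_sg)).pow' 2)
  · intro z hz
    exact mul_ne_zero (one_add_ne (qt h0 h1).1 (qt h0 h1).2 (norm_sg_le hz))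
      (pow_ne_zero 2 (one_sub_ne (qt h0 h1).1 (qt h0 h1).2 (norm_sg_le hz)))

lemma N2_smul {n : ℕ} {H H' : (Fin n → ℤˣ) → ℂ → ℂ} {c : ℝ} (hc : 0 ≤ c)
    (h : ∀ ω, ‖H' ω 0‖ = c * ‖H ω 0‖) : N2 n H' = c * N2 n H := by
  unfold N2
  have : (∑ ω, ‖H' ω 0‖ ^ 2) / 2 ^ n = c ^ 2 * ((∑ ω, ‖H ω 0‖ ^ 2) / 2 ^ n) := by
    rw [mul_div_assoc', Finset.mul_sum]
    congr 1
    apply Finset.sum_congr rfl
    intro ω _
    rw [h, mul_pow]
  rw [this, Real.sqrt_mul (by positivity), Real.sqrt_sq hc]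

/-- The key inequality for fixed `τ`. -/
lemma key_step {n : ℕ} (IH : ∀ H : (Fin n → ℤˣ) → ℂ → ℂ, Fam n H → N2 n H ≤ circleAverage (N1 n H) 0 1)
    {G0 G1 : (Fin n → ℤˣ) → ℂ → ℂ} (h0 : Fam n G0) (h1 : Fam n G1) {τ : ℝ} (ht0 : 0 ≤ τ) (ht1 : τ ≤ 1) :
    (1 + τ) / (1 + τ / 3) / 2 * N2 n (fun ω z => G0 ω z + sg z * G1 ω z) +
      (1 - τ) / (1 - τ / 3) / 2 * N2 n (fun ω z => G0 ω z - sg z * G1 ω z) ≤
    circleAverage (fun z => (N1 n (fun ω z => G0 ω z + sg z * G1 ω z) z +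
      N1 n (fun ω z => G0 ω z - sg z * G1 ω z) z) / 2) 0 1 := by
  set U : (Fin n → ℤˣ) → ℂ → ℂ := fun ω z => G0 ω z + sg z * G1 ω z with hU
  set W : (Fin n → ℤˣ) → ℂ → ℂ := fun ω z => G0 ω z - sg z * G1 ω z with hW
  -- first strategy
  let Hm : (Fin n → ℤˣ) → ℂ → ℂ := fun ω z => (1 / 2 * rho τ (sg z)) * G0 ω z + (-(1 / 2) * rho τ (sg z) * sg z) * G1 ω z
  have FHm : Fam n Hm := Fam.comb n ((AA_const _).mul (AA_rho ht0 ht1))
    (((AA_const _).mul (AA_rho ht0 ht1)).mul AA_sg) h0 h1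
  let Hz : (Fin n → ℤˣ) → ℂ → ℂ := fun ω z => (1 / 2 * MM τ (sg z)) * G0 ω z +
    (1 / 2 * (KU τ (sg z) - KW τ (sg z))) * G1 ω z
  have FHz : Fam n Hz := Fam.comb n ((AA_const _).mul (AA_MM ht0 ht1))
    ((AA_const _).mul ((AA_KU ht0 ht1).sub' (AA_KW ht0 ht1))) h0 h1
  have I1 := IH Hm FHm
  have I2 := IH Hz FHz
  have e1 : ∀ ω z, Hm ω z = 1 / 2 * rho τ (sg z) * W ω z := by
    intro ω z; simp only [Hm, hW]; ring
  have e2 : ∀ ω z, ‖z‖ ≤ 1 → sg z * Hz ω z = 1 / 2 * (KU τ (sg z) * U ω z + KW τ (sg z) * W ω z) := by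
    intro ω z hz
    have := s_mul_MM ht0 ht1 (norm_sg_le hz)
    simp only [Hz, hU, hW]
    linear_combination (1 / 2 * G0 ω z) * this
  have V1 : N2 n Hm = (1 - τ) / (1 - τ / 3) / 2 * N2 n W := by
    apply N2_smul
    · apply div_nonneg _ (by norm_num)
      apply div_nonneg <;> linarith
    · intro ω
      have h4 : ‖(1 / 2 : ℂ)‖ = 1 / 2 := by norm_num
      rw [e1, norm_mul, norm_mul, sg_zero, rho_aa ht0 ht1, Complex.norm_real, Real.norm_of_nonneg, h4]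
      · ring
      · apply div_nonneg <;> linarith
  have V2 : N2 n Hz = (1 + τ) / (1 + τ / 3) / 2 * N2 n U := by
    apply N2_smul
    · positivity
    · intro ω
      have := e2 ω 0 (by simp)
      rw [sg_zero, KW_aa, KU_aa ht0] at this
      have h3 : ‖(aa : ℂ) * Hz ω 0‖ = ‖1 / 2 * (((aa * ((1 + τ) / (1 + τ / 3)) : ℝ) : ℂ) * U ω 0 + 0 * W ω 0)‖ := by
        rw [this]
      rw [norm_mul, norm_mul, zero_mul, add_zero, norm_mul, Complex.norm_real, Complex.norm_real,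
        Real.norm_of_nonneg aa_pos.le, Real.norm_of_nonneg (mul_nonneg aa_pos.le (by positivity))] at h3
      have h4 : ‖(1 / 2 : ℂ)‖ = 1 / 2 := by norm_num
      rw [h4] at h3
      have h5 : aa * ‖Hz ω 0‖ = aa * ((1 + τ) / (1 + τ / 3) / 2 * ‖U ω 0‖) := by rw [h3]; ring
      exact mul_left_cancel₀ aa_pos.ne' h5
  have FU : ∀ ω, AA (U ω) := fun ω => (h0.aa n ω).add' (AA_sg.mul (h1.aa n ω))
  have FW : ∀ ω, AA (W ω) := fun ω => (h0.aa n ω).sub' (AA_sg.mul (h1.aa n ω))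
  rw [V1] at I1
  rw [V2] at I2
  have I3 : circleAverage (N1 n Hz) 0 1 + circleAverage (N1 n Hm) 0 1 ≤
      circleAverage (fun z => (N1 n U z + N1 n W z) / 2) 0 1 := by
    rw [← circleAverage_add (N1_integrable (FHz.aa n)) (N1_integrable (FHm.aa n))]
    apply circleAverage_mono
    · exact (N1_integrable (FHz.aa n)).add (N1_integrable (FHm.aa n))
    · have := ((N1_integrable FU).add (N1_integrable FW))
      have := this.const_fun_smul (a := (1/2 : ℝ))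
      simpa [div_eq_inv_mul] using this
    · intro z hz
      have hz1 : ‖z‖ = 1 := by simpa using hz
      simp only [Pi.add_apply]
      unfold N1
      rw [← add_div, ← add_div, ← Finset.sum_add_distrib, ← Finset.sum_add_distrib, div_right_comm]
      apply div_le_div_of_nonneg_right _ (by positivity)
      rw [Finset.sum_div]
      apply Finset.sum_le_sum
      intro ω _
      have hs := norm_sg_eq hz1
      have k1 : ‖Hz ω z‖ = ‖sg z * Hz ω z‖ := by rw [norm_mul, hs, one_mul]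
      rw [k1, e2 ω z hz1.le, e1, norm_mul, norm_mul, norm_mul]
      have h4 : ‖(1 / 2 : ℂ)‖ = 1 / 2 := by norm_num
      rw [h4]
      have k2 := norm_add_le (KU τ (sg z) * U ω z) (KW τ (sg z) * W ω z)
      rw [norm_mul, norm_mul, norm_KU ht0 ht1 hs] at k2
      have k3 := norm_KW_add_rho ht0 ht1 hs
      have k4 : ‖rho τ (sg z)‖ = 1 - ‖KW τ (sg z)‖ := by linarith
      rw [k4]
      nlinarith [norm_nonneg (W ω z), norm_nonneg (U ω z)]
  linarith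

/-- The two-point scalar lemma. -/
lemma scalar_lemma {A B R : ℝ} (hA : 0 ≤ A) (hB : 0 ≤ B)
    (h : ∀ τ : ℝ, 0 ≤ τ → τ ≤ 1 → (1 + τ) / (1 + τ / 3) / 2 * A + (1 - τ) / (1 - τ / 3) / 2 * B ≤ R)
    (hAB : B ≤ A) : (A ^ 2 + B ^ 2) / 2 ≤ R ^ 2 := by
  have hex : ∃ τ : ℝ, 0 ≤ τ ∧ τ ≤ 1 ∧ (1 - τ) / (1 - τ / 3) / 2 * A = (1 + τ) / (1 + τ / 3) / 2 * B := by
    let φ : ℝ → ℝ := fun τ => (1 - τ) / (1 - τ / 3) / 2 * A - (1 + τ) / (1 + τ / 3) / 2 * B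
    have hc : ContinuousOn φ (Set.Icc 0 1) := by
      apply ContinuousOn.sub
      · apply ContinuousOn.mul _ continuousOn_const
        apply ContinuousOn.div_const
        apply ContinuousOn.div (by fun_prop) (by fun_prop)
        intro x hx
        have := hx.2
        have : x / 3 ≤ 1 / 3 := by linarith
        linarith
      · apply ContinuousOn.mul _ continuousOn_const
        apply ContinuousOn.div_const
        apply ContinuousOn.div (by fun_prop) (by fun_prop)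
        intro x hx
        have := hx.1
        have : 0 ≤ x / 3 := by linarith
        linarith
    have h2 := intermediate_value_Icc' (zero_le_one) hc
    have h3 : (0 : ℝ) ∈ Set.Icc (φ 1) (φ 0) := by
      constructor
      · simp only [φ]; norm_num; exact hB
      · simp only [φ]; norm_num; linarith
    obtain ⟨τ, hτ, he⟩ := h2 h3
    refine ⟨τ, hτ.1, hτ.2, ?_⟩
    simp only [φ] at he
    linarith
  obtain ⟨τ, h0, h1, he⟩ := hex
  have h2 := h τ h0 h1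
  set cp := (1 + τ) / (1 + τ / 3) / 2 with hcp
  set cm := (1 - τ) / (1 - τ / 3) / 2 with hcm
  have hcp0 : 0 ≤ cp := by rw [hcp]; positivity
  have hcm0 : 0 ≤ cm := by
    rw [hcm]; apply div_nonneg _ (by norm_num); apply div_nonneg <;> linarith
  have h3 : 1 / 2 ≤ cp ^ 2 + cm ^ 2 := by
    have e1 : cp ^ 2 + cm ^ 2 - 1 / 2 = 4 * τ ^ 4 / ((1 + τ / 3) ^ 2 * (1 - τ / 3) ^ 2 * 81) * 1 := by
      have a1 : (3 + τ) ≠ 0 := by positivity
      have a2 : (3 - τ) ≠ 0 := by linarith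
      have b1 : cp = 3 * (1 + τ) / (2 * (3 + τ)) := by rw [hcp]; field_simp
      have b2 : cm = 3 * (1 - τ) / (2 * (3 - τ)) := by
        rw [hcm]
        have : 1 - τ / 3 = (3 - τ) / 3 := by ring
        rw [this]
        field_simp
      have b3 : 1 + τ / 3 = (3 + τ) / 3 := by ring
      have b4 : 1 - τ / 3 = (3 - τ) / 3 := by ring
      rw [b1, b2, b3, b4]
      field_simp
      ring
    have e2 : 0 ≤ 4 * τ ^ 4 / ((1 + τ / 3) ^ 2 * (1 - τ / 3) ^ 2 * 81) * 1 := by positivity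
    linarith
  have h4 : (cp * A + cm * B) ^ 2 = (cp ^ 2 + cm ^ 2) * (A ^ 2 + B ^ 2) := by
    have : (cp * A + cm * B) ^ 2 = (cp ^ 2 + cm ^ 2) * (A ^ 2 + B ^ 2) - (cp * B - cm * A) ^ 2 := by ring
    rw [this, he]; ring
  have h5 : (cp * A + cm * B) ^ 2 ≤ R ^ 2 := by
    apply pow_le_pow_left₀ (by positivity) h2
  nlinarith [sq_nonneg A, sq_nonneg B]

end

end Pool.Agent.Helper228.HC
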