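import Mathlib
import Pool.Agent.Helper228.HC.Upper

open Complex Metric Finset Real

namespace Pool.Agent.Helper228.HC

noncomputable section

lemma sum_cons {n : ℕ} {M : Type*} [AddCommMonoid M] (g : (Fin (n + 1) → ℤˣ) → M) :
    ∑ x, g x = ∑ ω : Fin n → ℤˣ, g (Fin.cons 1 ω) + ∑ ω : Fin n → ℤˣ, g (Fin.cons (-1) ω) := by
  rw [← (Fin.consEquiv (fun _ => ℤˣ)).sum_comp, Fintype.sum_prod_type, UnitsInt.univ,
    Finset.sum_pair (by decide)]
  rfl

lemma N1_nonneg (n : ℕ) (H : (Fin n → ℤˣ) → ℂ → ℂ) (z : ℂ) : 0 ≤ N1 n H z := by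
  unfold N1; positivity

lemma N2_nonneg (n : ℕ) (H : (Fin n → ℤˣ) → ℂ → ℂ) : 0 ≤ N2 n H := Real.sqrt_nonneg _

theorem main_ineq : ∀ (n : ℕ) (H : (Fin n → ℤˣ) → ℂ → ℂ), Fam n H →
    N2 n H ≤ circleAverage (N1 n H) 0 1
  | 0, H, hH => N2_zero_le hH
  | n + 1, H, hH => by
    obtain ⟨G0, G1, h0, h1, h⟩ := hH
    have IH := main_ineq n
    set U : (Fin n → ℤˣ) → ℂ → ℂ := fun ω z => G0 ω z + sg z * G1 ω z with hU
    set W : (Fin n → ℤˣ) → ℂ → ℂ := fun ω z => G0 ω z - sg z * G1 ω z with hW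
    have hU1 : ∀ ω z, H (Fin.cons 1 ω) z = U ω z := by
      intro ω z; rw [h, hU]; simp
    have hW1 : ∀ ω z, H (Fin.cons (-1) ω) z = W ω z := by
      intro ω z; rw [h, hW]; simp; ring
    have eN1 : N1 (n + 1) H = fun z => (N1 n U z + N1 n W z) / 2 := by
      funext z
      unfold N1
      rw [sum_cons]
      simp only [hU1, hW1]
      rw [pow_succ]
      field_simp
    have eN2 : N2 (n + 1) H ^ 2 = (N2 n U ^ 2 + N2 n W ^ 2) / 2 := by
      unfold N2
      rw [Real.sq_sqrt (by positivity), Real.sq_sqrt (by positivity), Real.sq_sqrt (by positivity), sum_cons]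
      simp only [hU1, hW1]
      rw [pow_succ]
      field_simp
    have hR : 0 ≤ circleAverage (N1 (n + 1) H) 0 1 := by
      apply circleAverage_nonneg_of_nonneg
      intro z _
      exact N1_nonneg _ _ _
    have key : (N2 n U ^ 2 + N2 n W ^ 2) / 2 ≤ circleAverage (N1 (n + 1) H) 0 1 ^ 2 := by
      rcases le_total (N2 n W) (N2 n U) with hc | hc
      · apply scalar_lemma (N2_nonneg _ _) (N2_nonneg _ _) _ hc
        intro τ t0 t1
        rw [eN1]
        exact key_step IH h0 h1 t0 t1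
      · rw [add_comm]
        apply scalar_lemma (N2_nonneg _ _) (N2_nonneg _ _) _ hc
        intro τ t0 t1
        have h1' : Fam n (fun ω z => (-1 : ℂ) * G1 ω z + 0 * G1 ω z) :=
          Fam.comb n (AA_const (-1)) (AA_const 0) h1 h1
        have := key_step IH h0 h1' t0 t1
        have e1 : (fun (ω : Fin n → ℤˣ) z => G0 ω z + sg z * ((-1 : ℂ) * G1 ω z + 0 * G1 ω z)) = W := by
          funext ω z; rw [hW]; ring
        have e2 : (fun (ω : Fin n → ℤˣ) z => G0 ω z - sg z * ((-1 : ℂ) * G1 ω z + 0 * G1 ω z)) = U := by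
          funext ω z; rw [hU]; ring
        rw [e1, e2] at this
        rw [eN1]
        simpa [add_comm] using this
    rw [← eN2] at key
    exact le_of_sq_le_sq key hR

lemma Fam.zero : ∀ n : ℕ, Fam n (fun _ _ => 0)
  | 0 => fun _ => AA_const 0
  | n + 1 => ⟨fun _ _ => 0, fun _ _ => 0, Fam.zero n, Fam.zero n, by intro ε ω z; simp⟩

lemma fam_chi : ∀ (n d : ℕ) (p : Fin n → Bool), (∑ i, if p i then 1 else 0) ≤ d →
    Fam n (fun ω z => sg z ^ d * ((∏ i, if p i then (((ω i : ℤˣ) : ℤ) : ℂ) else 1)))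
  | 0, d, p, _ => by
    intro ω
    simpa using AA_sg.pow' d
  | n + 1, d, p, hp => by
    rw [Fin.sum_univ_succ] at hp
    by_cases h0 : p 0
    · simp only [h0, if_true] at hp
      obtain ⟨d', rfl⟩ : ∃ d', d = d' + 1 := ⟨d - 1, by omega⟩
      refine ⟨fun _ _ => 0, _, Fam.zero n, fam_chi n d' (fun i => p i.succ) (by omega), ?_⟩
      intro ε ω z
      simp only [Fin.prod_univ_succ, h0, if_true, Fin.cons_zero, Fin.cons_succ]
      ring
    · simp only [h0, if_false, Bool.false_eq_true, zero_add] at hp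
      refine ⟨_, fun _ _ => 0, fam_chi n d (fun i => p i.succ) hp, Fam.zero n, ?_⟩
      intro ε ω z
      simp only [Fin.prod_univ_succ, h0, if_false, Fin.cons_succ, Bool.false_eq_true]
      ring

lemma Fam.sum {n : ℕ} {ι : Type*} (T : Finset ι) (c : ι → ℂ) (H : ι → (Fin n → ℤˣ) → ℂ → ℂ)
    (h : ∀ i ∈ T, c i ≠ 0 → Fam n (H i)) : Fam n (fun ω z => ∑ i ∈ T, c i * H i ω z) := by
  classical
  induction T using Finset.induction_on with
  | empty => simpa using Fam.zero n
  | insert a T ha ih =>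
    have h1 := ih (fun i hi => h i (Finset.mem_insert_of_mem hi))
    have e : (fun (ω : Fin n → ℤˣ) z => ∑ i ∈ insert a T, c i * H i ω z) =
        fun ω z => c a * H a ω z + 1 * ∑ i ∈ T, c i * H i ω z := by
      funext ω z; rw [Finset.sum_insert ha, one_mul]
    rw [e]
    by_cases hc : c a = 0
    · have e2 : (fun (ω : Fin n → ℤˣ) z => c a * H a ω z + 1 * ∑ i ∈ T, c i * H i ω z) =
        fun ω z => 0 * (0 : ℂ) + 1 * ∑ i ∈ T, c i * H i ω z := by
        funext ω z; rw [hc]; simp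
      rw [e2]
      exact Fam.comb n (AA_const 0) (AA_const 1) (Fam.zero n) h1
    · exact Fam.comb n (AA_const _) (AA_const 1) (h a (Finset.mem_insert_self _ _) hc) h1

end

end Pool.Agent.Helper228.HC
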