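import Mathlib
import Pool.Agent.Helper228.HC.Upper2
import Pool.Agent.Helper228.HC.Defs

open Complex Metric Finset Real

namespace Pool.Agent.Helper228.HC

noncomputable section

lemma lpNorm_one {n : ℕ} (f : Cube n → ℝ) : lpNorm 1 f = mean fun x => |f x| := by
  unfold lpNorm
  simp

lemma mean_nonneg {n : ℕ} {g : Cube n → ℝ} (h : ∀ x, 0 ≤ g x) : 0 ≤ mean g := by
  unfold mean
  apply div_nonneg (Finset.sum_nonneg fun x _ => h x) (by positivity)

lemma lpNorm_two {n : ℕ} (f : Cube n → ℝ) : lpNorm 2 f = Real.sqrt (mean fun x => f x ^ 2) := by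
  unfold lpNorm
  rw [Real.sqrt_eq_rpow]
  congr 2
  funext x
  rw [Real.rpow_two, sq_abs]

lemma unit_mul_self (u : ℤˣ) : (((u : ℤˣ) : ℤ) : ℝ) * (((u : ℤˣ) : ℤ) : ℝ) = 1 := by
  have : u * u = 1 := Int.units_mul_self u
  have h2 : ((u : ℤ)) * (u : ℤ) = 1 := by
    rw [← Units.val_mul, this]; rfl
  exact_mod_cast h2

lemma prod_one_add {n : ℕ} (x y : Cube n) :
    ∏ i, (1 + (((x i : ℤˣ) : ℤ) : ℝ) * (((y i : ℤˣ) : ℤ) : ℝ)) = if x = y then 2 ^ n else 0 := by
  split_ifs with h
  · subst h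
    simp only [unit_mul_self]
    norm_num
  · obtain ⟨i, hi⟩ := Function.ne_iff.1 h
    apply Finset.prod_eq_zero (Finset.mem_univ i)
    rcases Int.units_eq_one_or (x i) with h1 | h1 <;> rcases Int.units_eq_one_or (y i) with h2 | h2
    · exact absurd (h1.trans h2.symm) hi
    · rw [h1, h2]; norm_num
    · rw [h1, h2]; norm_num
    · exact absurd (h1.trans h2.symm) hi

lemma sum_walsh_mul {n : ℕ} (x y : Cube n) :
    ∑ S : Finset (Fin n), walsh S x * walsh S y = if x = y then 2 ^ n else 0 := by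
  rw [← prod_one_add]
  have := Finset.prod_one_add (s := (Finset.univ : Finset (Fin n)))
    (f := fun i => (((x i : ℤˣ) : ℤ) : ℝ) * (((y i : ℤˣ) : ℤ) : ℝ))
  rw [this]
  rw [Finset.powerset_univ]
  apply Finset.sum_congr rfl
  intro S _
  unfold walsh
  rw [Finset.prod_mul_distrib]

/-- Fourier inversion. -/
lemma fourier_inversion {n : ℕ} (f : Cube n → ℝ) (x : Cube n) :
    f x = ∑ S : Finset (Fin n), fourier f S * walsh S x := by
  have h1 : ∑ S : Finset (Fin n), fourier f S * walsh S x =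
      (∑ y, f y * ∑ S : Finset (Fin n), walsh S y * walsh S x) / 2 ^ n := by
    unfold fourier mean
    rw [Finset.sum_div]
    simp only [Finset.mul_sum, Finset.sum_div, Finset.sum_mul]
    rw [Finset.sum_comm]
    apply Finset.sum_congr rfl
    intro y _
    apply Finset.sum_congr rfl
    intro S _
    ring
  rw [h1]
  simp only [sum_walsh_mul]
  simp

lemma card_le_degree {n : ℕ} {f : Cube n → ℝ} {S : Finset (Fin n)} (h : fourier f S ≠ 0) :
    S.card ≤ degree f := by
  classical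
  unfold degree
  exact Finset.le_sup (f := Finset.card) (Finset.mem_filter.2 ⟨Finset.mem_univ _, h⟩)

lemma fam_walsh {n d : ℕ} (S : Finset (Fin n)) (h : S.card ≤ d) :
    Fam n (fun ω z => sg z ^ d * ((walsh S ω : ℝ) : ℂ)) := by
  classical
  have h1 := fam_chi n d (fun i => decide (i ∈ S)) (by simpa using h)
  have e : (fun (ω : Fin n → ℤˣ) z => sg z ^ d * ((walsh S ω : ℝ) : ℂ)) =
      fun ω z => sg z ^ d * ((∏ i, if (decide (i ∈ S) : Bool) then (((ω i : ℤˣ) : ℤ) : ℂ) else 1)) := by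
    funext ω z
    congr 1
    unfold walsh
    simp only [decide_eq_true_eq]
    rw [Finset.prod_ite_mem, Finset.univ_inter]
    push_cast
    rfl
  rw [e]; exact h1

lemma fam_f {n : ℕ} (f : Cube n → ℝ) : Fam n (fun ω z => sg z ^ degree f * ((f ω : ℝ) : ℂ)) := by
  have h := Fam.sum (Finset.univ : Finset (Finset (Fin n))) (fun S => ((fourier f S : ℝ) : ℂ))
    (fun S ω z => sg z ^ degree f * ((walsh S ω : ℝ) : ℂ)) (by
      intro S _ hS
      apply fam_walsh
      apply card_le_degree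
      intro h0
      apply hS
      rw [h0]; simp)
  have e : (fun (ω : Fin n → ℤˣ) z => sg z ^ degree f * ((f ω : ℝ) : ℂ)) =
      fun ω z => ∑ S, ((fourier f S : ℝ) : ℂ) * (sg z ^ degree f * ((walsh S ω : ℝ) : ℂ)) := by
    funext ω z
    conv_lhs => rw [fourier_inversion f ω]
    push_cast
    rw [Finset.mul_sum]
    apply Finset.sum_congr rfl
    intro S _
    ring
  rw [e]; exact h

theorem upper_bound {n : ℕ} (f : Cube n → ℝ) :
    lpNorm 2 f ≤ Real.sqrt 3 ^ degree f * lpNorm 1 f := by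
  have h := main_ineq n _ (fam_f f)
  have e1 : N2 n (fun ω z => sg z ^ degree f * ((f ω : ℝ) : ℂ)) = aa ^ degree f * lpNorm 2 f := by
    rw [lpNorm_two]
    unfold N2 mean
    have : ∀ ω : Cube n, ‖sg 0 ^ degree f * ((f ω : ℝ) : ℂ)‖ ^ 2 = (aa ^ degree f) ^ 2 * f ω ^ 2 := by
      intro ω
      rw [sg_zero, norm_mul, norm_pow, Complex.norm_real, Complex.norm_real, Real.norm_of_nonneg aa_pos.le,
        mul_pow, Real.norm_eq_abs, sq_abs]
    simp only [this]
    rw [← Finset.mul_sum, mul_div_assoc, Real.sqrt_mul (by positivity), Real.sqrt_sq (pow_nonneg aa_pos.le _)]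
  have e2 : circleAverage (N1 n (fun ω z => sg z ^ degree f * ((f ω : ℝ) : ℂ))) 0 1 = lpNorm 1 f := by
    apply circleAverage_const_on_circle
    intro z hz
    have hz1 : ‖z‖ = 1 := by simpa using hz
    rw [lpNorm_one]
    unfold N1 mean
    congr 1
    apply Finset.sum_congr rfl
    intro ω _
    rw [norm_mul, norm_pow, norm_sg_eq hz1, one_pow, one_mul, Complex.norm_real, Real.norm_eq_abs]
  rw [e1, e2] at h
  have h3 : Real.sqrt 3 * aa = 1 := by
    unfold aa
    rw [mul_one_div, div_self]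
    positivity
  calc lpNorm 2 f = (Real.sqrt 3 * aa) ^ degree f * lpNorm 2 f := by rw [h3]; simp
    _ = Real.sqrt 3 ^ degree f * (aa ^ degree f * lpNorm 2 f) := by rw [mul_pow]; ring
    _ ≤ _ := mul_le_mul_of_nonneg_left h (by positivity)

end

end Pool.Agent.Helper228.HC
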