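import Mathlib
import Pool.Agent.Helper228.HC.Lower2

open MeasureTheory ProbabilityTheory Filter Topology Real

namespace Pool.Agent.Helper228.HC

noncomputable section

lemma integrable_poly (p : Polynomial ℝ) : Integrable (fun x => p.eval x) (gaussianReal 0 1) := by
  obtain ⟨K, hK0, hK⟩ := poly_bound p
  have h1 : Integrable (fun x : ℝ => K * (Real.exp (1 * x) + Real.exp ((-1) * x))) (gaussianReal 0 1) :=
    ((integrable_exp_mul_gaussianReal 1).add (integrable_exp_mul_gaussianReal (-1))).const_mul K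
  apply h1.mono' p.continuous.aestronglyMeasurable
  apply ae_of_all
  intro x
  rw [Real.norm_eq_abs]
  apply (hK x).trans
  apply mul_le_mul_of_nonneg_left _ hK0
  rcases abs_cases x with ⟨h, _⟩ | ⟨h, _⟩
  · rw [h, one_mul]; linarith [Real.exp_pos ((-1) * x)]
  · rw [h, neg_one_mul]; linarith [Real.exp_pos (1 * x)]

lemma min_bdd_cont {g : ℝ → ℝ} (hg : Continuous g) (h0 : ∀ x, 0 ≤ g x) {L : ℝ} (hL : 0 < L) :
    ∃ φ : BoundedContinuousFunction ℝ ℝ, ∀ x, φ x = min (g x) L := by
  refine ⟨BoundedContinuousFunction.ofNormedAddCommGroup (fun x => min (g x) L)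
    (hg.min continuous_const) L ?_, fun x => rfl⟩
  intro x
  rw [Real.norm_of_nonneg (le_min (h0 x) hL.le)]
  exact min_le_right _ _

theorem transfer {C : ℝ} (hC1 : 1 ≤ C)
    (h : ∀ n : ℕ, 1 ≤ n → ∀ f : Cube n → ℝ, lpNorm 2 f ≤ C ^ degree f * lpNorm 1 f) (p : Polynomial ℝ) :
    ∫ x, p.eval x ^ 2 ∂(gaussianReal 0 1) ≤
      C ^ (2 * p.natDegree) * (∫ x, |p.eval x| ∂(gaussianReal 0 1)) ^ 2 := by
  obtain ⟨K, hK0, hK⟩ := poly_bound (p ^ 2)
  set B := K * (2 * Real.exp (1 / 2)) with hB
  have hB0 : 0 ≤ B := by rw [hB]; positivity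
  have hBn : ∀ n : ℕ, 1 ≤ n → mean (fun x : Cube n => p.eval (XX n x) ^ 2) ≤ B := by
    intro n hn
    calc mean (fun x : Cube n => p.eval (XX n x) ^ 2) ≤ mean (fun x : Cube n => K * Real.exp |XX n x|) := by
          apply mean_mono
          intro x
          have := hK (XX n x)
          rw [Polynomial.eval_pow] at this
          exact (le_abs_self _).trans this
      _ = K * mean (fun x : Cube n => Real.exp |XX n x|) := mean_const_mul _ _
      _ ≤ _ := mul_le_mul_of_nonneg_left (exp_moment hn) hK0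
  have hsq : ∀ n : ℕ, 1 ≤ n → mean (fun x : Cube n => p.eval (XX n x) ^ 2) ≤
      C ^ (2 * p.natDegree) * (mean fun x : Cube n => |p.eval (XX n x)|) ^ 2 := by
    intro n hn
    have h1 := h n hn (fun x => p.eval (XX n x))
    rw [lpNorm_two, lpNorm_one] at h1
    have h0 : 0 ≤ mean fun x : Cube n => |p.eval (XX n x)| := mean_nonneg fun x => abs_nonneg _
    have h2 : Real.sqrt (mean fun x : Cube n => p.eval (XX n x) ^ 2) ≤
        C ^ p.natDegree * mean fun x : Cube n => |p.eval (XX n x)| := by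
      apply h1.trans
      apply mul_le_mul_of_nonneg_right _ h0
      exact pow_le_pow_right₀ hC1 (degree_poly_le n p)
    rw [Real.sqrt_le_iff] at h2
    calc mean (fun x : Cube n => p.eval (XX n x) ^ 2) ≤ _ := h2.2
      _ = _ := by rw [mul_pow, ← pow_mul, mul_comm p.natDegree 2]
  have hI2 : Integrable (fun x => p.eval x ^ 2) (gaussianReal 0 1) := by
    have := integrable_poly (p ^ 2)
    simpa [Polynomial.eval_pow] using this
  have hI4 : Integrable (fun x => p.eval x ^ 4) (gaussianReal 0 1) := by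
    have := integrable_poly (p ^ 4)
    simpa [Polynomial.eval_pow] using this
  have hI1 : Integrable (fun x => |p.eval x|) (gaussianReal 0 1) := (integrable_poly p).abs
  -- main finite inequality
  have key : ∀ L : ℝ, 0 < L → ∫ x, p.eval x ^ 2 ∂(gaussianReal 0 1) ≤
      C ^ (2 * p.natDegree) * (∫ x, |p.eval x| ∂(gaussianReal 0 1) + B * L⁻¹) ^ 2 +
        (∫ x, p.eval x ^ 4 ∂(gaussianReal 0 1)) * L⁻¹ := by
    intro L hL
    obtain ⟨φ2, hφ2⟩ := min_bdd_cont (g := fun x => p.eval x ^ 2) (by fun_prop) (fun x => sq_nonneg _) hL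
    obtain ⟨φ1, hφ1⟩ := min_bdd_cont (g := fun x => |p.eval x|) (by fun_prop) (fun x => abs_nonneg _) hL
    have hlim : ∫ x, φ2 x ∂(gaussianReal 0 1) ≤
        C ^ (2 * p.natDegree) * (∫ x, φ1 x ∂(gaussianReal 0 1) + B * L⁻¹) ^ 2 := by
      apply le_of_tendsto_of_tendsto (tendsto_mean φ2)
        ((((tendsto_mean φ1).add_const (B * L⁻¹)).pow 2).const_mul (C ^ (2 * p.natDegree)))
      filter_upwards [eventually_ge_atTop 1] with n hn
      have h1 : mean (fun x : Cube n => φ2 (XX n x)) ≤ mean (fun x : Cube n => p.eval (XX n x) ^ 2) := by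
        apply mean_mono
        intro x
        rw [hφ2]
        exact min_le_left _ _
      have h2 : (mean fun x : Cube n => |p.eval (XX n x)|) ≤ mean (fun x : Cube n => φ1 (XX n x)) + B * L⁻¹ := by
        have : (mean fun x : Cube n => |p.eval (XX n x)|) ≤
            mean (fun x : Cube n => φ1 (XX n x) + L⁻¹ * p.eval (XX n x) ^ 2) := by
          apply mean_mono
          intro x
          rw [hφ1]
          set y := p.eval (XX n x)
          rcases le_total |y| L with hc | hc
          · rw [min_eq_left hc]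
            have : 0 ≤ L⁻¹ * y ^ 2 := by positivity
            linarith
          · rw [min_eq_right hc]
            have h3 : |y| ≤ L⁻¹ * y ^ 2 := by
              rw [inv_mul_eq_div, le_div_iff₀ hL, ← sq_abs y]
              nlinarith [abs_nonneg y]
            linarith
        rw [mean_add, mean_const_mul] at this
        have h4 : L⁻¹ * mean (fun x : Cube n => p.eval (XX n x) ^ 2) ≤ L⁻¹ * B :=
          mul_le_mul_of_nonneg_left (hBn n hn) (by positivity)
        linarith
      have h0 : 0 ≤ mean fun x : Cube n => |p.eval (XX n x)| := mean_nonneg fun x => abs_nonneg _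
      calc mean (fun x : Cube n => φ2 (XX n x)) ≤ _ := h1
        _ ≤ _ := hsq n hn
        _ ≤ _ := by
          apply mul_le_mul_of_nonneg_left _ (by positivity)
          exact pow_le_pow_left₀ h0 h2 2
    have h5 : ∫ x, φ1 x ∂(gaussianReal 0 1) ≤ ∫ x, |p.eval x| ∂(gaussianReal 0 1) := by
      apply integral_mono (φ1.integrable _) hI1
      intro x
      simp only [hφ1]
      exact min_le_left _ _
    have h50 : 0 ≤ ∫ x, φ1 x ∂(gaussianReal 0 1) := by
      apply integral_nonneg
      intro x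
      simp only [hφ1]
      exact le_min (abs_nonneg _) hL.le
    have h6 : ∫ x, p.eval x ^ 2 ∂(gaussianReal 0 1) ≤
        ∫ x, (φ2 x + p.eval x ^ 4 * L⁻¹) ∂(gaussianReal 0 1) := by
      apply integral_mono hI2 ((φ2.integrable _).add (hI4.mul_const _))
      intro x
      simp only [Pi.add_apply, hφ2]
      set y := p.eval x
      rcases le_total (y ^ 2) L with hc | hc
      · rw [min_eq_left hc]
        have : 0 ≤ y ^ 4 * L⁻¹ := by positivity
        linarith
      · rw [min_eq_right hc]
        have h3 : y ^ 2 ≤ y ^ 4 * L⁻¹ := by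
          rw [← div_eq_mul_inv, le_div_iff₀ hL]
          nlinarith [sq_nonneg y]
        linarith
    rw [integral_add (φ2.integrable _) (hI4.mul_const _), integral_mul_const] at h6
    have h7 : C ^ (2 * p.natDegree) * (∫ x, φ1 x ∂(gaussianReal 0 1) + B * L⁻¹) ^ 2 ≤
        C ^ (2 * p.natDegree) * (∫ x, |p.eval x| ∂(gaussianReal 0 1) + B * L⁻¹) ^ 2 := by
      apply mul_le_mul_of_nonneg_left _ (by positivity)
      apply pow_le_pow_left₀ (by positivity)
      linarith
    linarith
  have hlim2 : Tendsto (fun m : ℕ => C ^ (2 * p.natDegree) *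
      (∫ x, |p.eval x| ∂(gaussianReal 0 1) + B * ((m : ℝ) + 1)⁻¹) ^ 2 +
        (∫ x, p.eval x ^ 4 ∂(gaussianReal 0 1)) * ((m : ℝ) + 1)⁻¹) atTop
      (𝓝 (C ^ (2 * p.natDegree) * (∫ x, |p.eval x| ∂(gaussianReal 0 1) + B * 0) ^ 2 +
        (∫ x, p.eval x ^ 4 ∂(gaussianReal 0 1)) * 0)) := by
    have ht : Tendsto (fun m : ℕ => ((m : ℝ) + 1)⁻¹) atTop (𝓝 0) := by
      simpa [one_div] using tendsto_one_div_add_atTop_nhds_zero_nat (𝕜 := ℝ)
    exact ((((ht.const_mul B).const_add _).pow 2).const_mul _).add (ht.const_mul _)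
  have := ge_of_tendsto' hlim2 (fun m => key ((m : ℝ) + 1) (by positivity))
  simpa using this

end

end Pool.Agent.Helper228.HC
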