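import Mathlib

open MeasureTheory ProbabilityTheory Filter Topology Real Polynomial

namespace Pool.Agent.Helper228.HC

noncomputable section

/-- Hermite polynomials divided by `n!`: generating function `exp(2xt - t²)`. -/
def hh : ℕ → ℝ[X]
  | 0 => 1
  | 1 => 2 * X
  | n + 2 => C ((n : ℝ) + 2)⁻¹ * (2 * X * hh (n + 1) - 2 * hh n)

lemma hh_rec (n : ℕ) : C ((n : ℝ) + 2) * hh (n + 2) = 2 * X * hh (n + 1) - 2 * hh n := by
  rw [hh, ← mul_assoc, ← C_mul, mul_inv_cancel₀ (by positivity), C_1, one_mul]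

lemma hh_deriv : ∀ n : ℕ, derivative (hh (n + 1)) = 2 * hh n
  | 0 => by simp [hh]
  | 1 => by
    have h3 := hh_rec 0
    have h1 := hh_deriv 0
    have h5 := congrArg derivative h3
    simp only [derivative_mul, derivative_C, derivative_sub, derivative_ofNat, derivative_X, zero_mul,
      zero_add, mul_one] at h5
    have hne : (C (((0 : ℕ) : ℝ) + 2) : ℝ[X]) ≠ 0 := by
      rw [Ne, C_eq_zero]; positivity
    apply mul_left_cancel₀ hne
    have e0 : hh 0 = 1 := rfl
    have e1 : hh 1 = 2 * X := rfl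
    have e2 : (C (((0 : ℕ) : ℝ) + 2) : ℝ[X]) = 2 := by
      rw [Nat.cast_zero, zero_add, C_ofNat]
    rw [zero_add] at h1
    have goal2 : C (((0 : ℕ) : ℝ) + 2) * derivative (hh 2) = C (((0 : ℕ) : ℝ) + 2) * (2 * hh 1) := by
      rw [h5, h1, e0, e1, e2]
      simp only [derivative_one]
      ring
    exact goal2
  | n + 2 => by
    have h1 := hh_deriv n
    have h2 := hh_deriv (n + 1)
    have h3 := hh_rec (n + 1)
    have h4 := hh_rec n
    have h5 := congrArg derivative h3
    simp only [derivative_mul, derivative_C, derivative_sub, derivative_ofNat, derivative_X, zero_mul,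
      zero_add, mul_one] at h5
    have hne : (C (((n + 1 : ℕ) : ℝ) + 2) : ℝ[X]) ≠ 0 := by
      rw [Ne, C_eq_zero]; positivity
    apply mul_left_cancel₀ hne
    have e1 : (C (((n + 1 : ℕ) : ℝ) + 2) : ℝ[X]) = C ((n : ℝ) + 2) + 1 := by
      push_cast
      rw [← C_1, ← C_add]
      congr 1; ring
    rw [h5, h2, h1]
    rw [e1]
    linear_combination (-2) * h4

lemma hh_natDegree : ∀ n : ℕ, (hh n).natDegree ≤ n
  | 0 => by simp [hh]
  | 1 => by
    have : hh 1 = C 2 * X := by rw [hh, C_ofNat]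
    rw [this, natDegree_C_mul_X _ (by norm_num)]
  | n + 2 => by
    rw [hh]
    apply (natDegree_C_mul_le _ _).trans
    apply (natDegree_sub_le _ _).trans
    apply max_le
    · have h1 := hh_natDegree (n + 1)
      have e : (2 * X * hh (n + 1) : ℝ[X]) = C 2 * (X * hh (n + 1)) := by
        rw [C_ofNat, mul_assoc]
      rw [e]
      apply (natDegree_C_mul_le _ _).trans
      apply natDegree_mul_le.trans
      have := natDegree_X_le (R := ℝ)
      omega
    · have h1 := hh_natDegree n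
      have e : (2 * hh n : ℝ[X]) = C 2 * hh n := by rw [C_ofNat]
      rw [e]
      apply (natDegree_C_mul_le _ _).trans
      omega

/-- Convolution squares. -/
def ss (N : ℕ) : ℝ[X] := ∑ ij ∈ Finset.HasAntidiagonal.antidiagonal N, hh ij.1 * hh ij.2

lemma ss_zero : ss 0 = 1 := by simp [ss, hh]

lemma ss_deriv (N : ℕ) : derivative (ss (N + 1)) = 4 * ss N := by
  unfold ss
  rw [derivative_sum]
  simp only [derivative_mul]
  rw [Finset.sum_add_distrib, Finset.Nat.sum_antidiagonal_succ, Finset.Nat.sum_antidiagonal_succ']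
  simp only [hh_deriv]
  have e0 : derivative (hh 0) = 0 := by simp [hh]
  rw [e0, zero_mul, mul_zero, zero_add, zero_add, Finset.mul_sum, ← Finset.sum_add_distrib]
  apply Finset.sum_congr rfl
  intro ij _
  ring

lemma ss_aux (N : ℕ) : ∑ ij ∈ Finset.HasAntidiagonal.antidiagonal (N + 2), (C (ij.1 : ℝ)) * (hh ij.1 * hh ij.2) =
    2 * X * ss (N + 1) - 2 * ss N := by
  rw [Finset.Nat.sum_antidiagonal_succ, Finset.Nat.sum_antidiagonal_succ]
  unfold ss
  rw [Finset.Nat.sum_antidiagonal_succ (n := N)]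
  have e1 : ∀ ij : ℕ × ℕ, C (((ij.1 + 1 + 1 : ℕ)) : ℝ) * (hh (ij.1 + 1 + 1) * hh ij.2) =
      (2 * X * hh (ij.1 + 1) - 2 * hh ij.1) * hh ij.2 := by
    intro ij
    rw [← hh_rec, mul_assoc]
    congr 2
    push_cast; ring
  simp only [e1]
  have e0 : hh 0 = 1 := rfl
  have e2 : hh (0 + 1) = 2 * X := rfl
  rw [e2]
  simp only [e0]
  rw [Finset.mul_sum, mul_add, Finset.mul_sum]
  simp only [Nat.cast_zero, C_0, zero_mul, zero_add, Nat.cast_one, C_1, one_mul, add_sub_assoc]
  congr 1
  rw [← Finset.sum_sub_distrib]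
  apply Finset.sum_congr rfl
  intro ij _
  ring

lemma ss_rec (N : ℕ) : C ((N : ℝ) + 2) * ss (N + 2) = 4 * X * ss (N + 1) - 4 * ss N := by
  have h1 := ss_aux N
  have h2 : ∑ ij ∈ Finset.HasAntidiagonal.antidiagonal (N + 2), (C (ij.2 : ℝ)) * (hh ij.1 * hh ij.2) =
    2 * X * ss (N + 1) - 2 * ss N := by
    rw [← h1, ← Finset.Nat.sum_antidiagonal_swap]
    apply Finset.sum_congr rfl
    intro ij _
    simp only [Prod.fst_swap, Prod.snd_swap]
    ring
  have h3 : C ((N : ℝ) + 2) * ss (N + 2) =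
      ∑ ij ∈ Finset.HasAntidiagonal.antidiagonal (N + 2), (C (ij.1 : ℝ)) * (hh ij.1 * hh ij.2) +
      ∑ ij ∈ Finset.HasAntidiagonal.antidiagonal (N + 2), (C (ij.2 : ℝ)) * (hh ij.1 * hh ij.2) := by
    unfold ss
    rw [Finset.mul_sum, ← Finset.sum_add_distrib]
    apply Finset.sum_congr rfl
    intro ij hij
    rw [← add_mul, ← C_add]
    congr 2
    rw [Finset.HasAntidiagonal.mem_antidiagonal] at hij
    rw [← Nat.cast_add, hij]
    push_cast; ring
  rw [h3, h1, h2]
  ring

/-! Gaussian weights -/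

/-- integral against `exp(-b x²)` -/
def JJ (b : ℝ) (q : ℝ[X]) : ℝ := ∫ x : ℝ, q.eval x * Real.exp (-b * x ^ 2)

lemma JJ_integrable {b : ℝ} (hb : 0 < b) (q : ℝ[X]) :
    Integrable (fun x : ℝ => q.eval x * Real.exp (-b * x ^ 2)) := by
  induction q using Polynomial.induction_on' with
  | add p q hp hq =>
    have := hp.add hq
    refine this.congr (ae_of_all _ fun x => ?_)
    simp only [Pi.add_apply, eval_add]
    ring
  | monomial k c =>
    have h := (integrable_rpow_mul_exp_neg_mul_sq hb (s := (k : ℝ)) (by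
      have : (0 : ℝ) ≤ k := by positivity
      linarith)).const_mul c
    refine h.congr (ae_of_all _ fun x => ?_)
    simp only [eval_monomial, Real.rpow_natCast]
    ring

lemma JJ_add {b : ℝ} (hb : 0 < b) (p q : ℝ[X]) : JJ b (p + q) = JJ b p + JJ b q := by
  unfold JJ
  rw [← integral_add (JJ_integrable hb p) (JJ_integrable hb q)]
  congr 1
  funext x
  rw [eval_add]; ring

lemma JJ_C_mul (b c : ℝ) (p : ℝ[X]) : JJ b (C c * p) = c * JJ b p := by
  unfold JJ
  rw [← integral_const_mul]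
  congr 1
  funext x
  rw [eval_mul, eval_C]; ring

lemma JJ_sub {b : ℝ} (hb : 0 < b) (p q : ℝ[X]) : JJ b (p - q) = JJ b p - JJ b q := by
  have : p - q = p + C (-1) * q := by simp [sub_eq_add_neg]
  rw [this, JJ_add hb, JJ_C_mul]; ring

lemma JJ_sum {b : ℝ} (hb : 0 < b) {ι : Type*} (T : Finset ι) (f : ι → ℝ[X]) :
    JJ b (∑ i ∈ T, f i) = ∑ i ∈ T, JJ b (f i) := by
  classical
  induction T using Finset.induction_on with
  | empty => simp [JJ]
  | insert a T ha ih => rw [Finset.sum_insert ha, Finset.sum_insert ha, JJ_add hb, ih]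

lemma JJ_nonneg {b : ℝ} {q : ℝ[X]} (h : ∀ x, 0 ≤ q.eval x) : 0 ≤ JJ b q := by
  unfold JJ
  apply integral_nonneg
  intro x
  exact mul_nonneg (h x) (Real.exp_pos _).le

lemma JJ_mono {b : ℝ} (hb : 0 < b) {p q : ℝ[X]} (h : ∀ x, p.eval x ≤ q.eval x) : JJ b p ≤ JJ b q := by
  have := JJ_nonneg (b := b) (q := q - p) (fun x => by rw [eval_sub]; linarith [h x])
  rw [JJ_sub hb] at this
  linarith

lemma stein {b : ℝ} (hb : 0 < b) (q : ℝ[X]) : 2 * b * JJ b (X * q) = JJ b (derivative q) := by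
  have h := integral_eq_zero_of_hasDerivAt_of_integrable
    (f := fun x : ℝ => q.eval x * Real.exp (-b * x ^ 2))
    (f' := fun x : ℝ => (derivative q - C (2 * b) * (X * q)).eval x * Real.exp (-b * x ^ 2))
    (by
      intro x
      have h1 := q.hasDerivAt x
      have h2 : HasDerivAt (fun x : ℝ => Real.exp (-b * x ^ 2)) (Real.exp (-b * x ^ 2) * (-b * (2 * x))) x := by
        have h3 : HasDerivAt (fun x : ℝ => -b * x ^ 2) (-b * (2 * x)) x := by
          have := (hasDerivAt_pow 2 x).const_mul (-b)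
          simpa using this
        exact h3.exp
      refine (h1.fun_mul h2).congr_deriv ?_
      rw [eval_sub, eval_mul, eval_mul, eval_C, eval_X]
      ring)
    (JJ_integrable hb _) (JJ_integrable hb _)
  have h2 : JJ b (derivative q - C (2 * b) * (X * q)) = 0 := h
  rw [JJ_sub hb, JJ_C_mul] at h2
  linarith

end

end Pool.Agent.Helper228.HC
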