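import Mathlib
import Pool.Agent.Helper228.HC.Lower4

open MeasureTheory ProbabilityTheory Filter Topology Real Polynomial

namespace Pool.Agent.Helper228.HC

noncomputable section

lemma JJ_two_mul (b : ℝ) (p : ℝ[X]) : JJ b (2 * p) = 2 * JJ b p := by
  have : (2 : ℝ[X]) = C 2 := by rw [C_ofNat]
  rw [this, JJ_C_mul]

lemma JJ_four_mul (b : ℝ) (p : ℝ[X]) : JJ b (4 * p) = 4 * JJ b p := by
  have : (4 : ℝ[X]) = C 4 := by rw [C_ofNat]
  rw [this, JJ_C_mul]

lemma JJ_half_ss (k : ℕ) : JJ (1 / 2) (ss (2 * k)) = JJ (1 / 2) 1 * (6 ^ k / (k.factorial : ℝ)) := by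
  have hb : (0 : ℝ) < 1 / 2 := by norm_num
  induction k with
  | zero => simp [ss_zero]
  | succ k ih =>
    have h1 := congrArg (JJ (1 / 2)) (ss_rec (2 * k))
    rw [JJ_C_mul, JJ_sub hb, mul_assoc, JJ_four_mul, JJ_four_mul] at h1
    have h2 := stein hb (ss (2 * k + 1))
    rw [ss_deriv, JJ_four_mul] at h2
    have e : 2 * (k + 1) = 2 * k + 2 := by ring
    rw [e]
    have h3 : (((2 * k : ℕ) : ℝ) + 2) * JJ (1 / 2) (ss (2 * k + 2)) = 12 * JJ (1 / 2) (ss (2 * k)) := by
      rw [h1]; linarith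
    rw [ih] at h3
    have h4 : (((2 * k : ℕ) : ℝ) + 2) ≠ 0 := by positivity
    apply mul_left_cancel₀ h4
    rw [h3, Nat.factorial_succ]
    push_cast
    have : ((k.factorial : ℕ) : ℝ) ≠ 0 := by positivity
    field_simp
    ring

lemma JJ1_rec : ∀ n : ℕ, ((n : ℝ) + 1) * JJ 1 (hh (n + 1) * hh (n + 1)) = 2 * JJ 1 (hh n * hh n)
  | 0 => by
    have h2 := stein (b := 1) one_pos (hh 1)
    have e1 : derivative (hh 1) = 2 * hh 0 := hh_deriv 0
    rw [e1, JJ_two_mul] at h2
    have e2 : hh (0 + 1) * hh (0 + 1) = 2 * (X * hh 1) := by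
      have : hh (0 + 1) = 2 * X := rfl
      rw [this]
      ring
    have e3 : hh 0 * hh 0 = hh 0 := by
      have : hh 0 = 1 := rfl
      rw [this, one_mul]
    rw [e2, e3, JJ_two_mul]
    push_cast
    linarith
  | n + 1 => by
    have h1 := hh_rec n
    have h2 := stein (b := 1) one_pos (hh (n + 1) * hh (n + 2))
    rw [derivative_mul, hh_deriv n, hh_deriv (n + 1), JJ_add one_pos] at h2
    have e1 : C ((n : ℝ) + 2) * (hh (n + 2) * hh (n + 2)) =
        2 * (X * (hh (n + 1) * hh (n + 2))) - 2 * (hh n * hh (n + 2)) := by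
      rw [← mul_assoc, h1]; ring
    have e2 : JJ 1 (C ((n : ℝ) + 2) * (hh (n + 2) * hh (n + 2))) =
        JJ 1 (2 * (X * (hh (n + 1) * hh (n + 2))) - 2 * (hh n * hh (n + 2))) := by rw [e1]
    rw [JJ_C_mul, JJ_sub one_pos, JJ_two_mul, JJ_two_mul] at e2
    have e3 : 2 * hh n * hh (n + 2) = 2 * (hh n * hh (n + 2)) := by ring
    have e4 : hh (n + 1) * (2 * hh (n + 1)) = 2 * (hh (n + 1) * hh (n + 1)) := by ring
    rw [e3, e4, JJ_two_mul, JJ_two_mul] at h2
    have e5 : (((n + 1 : ℕ) : ℝ) + 1) = (n : ℝ) + 2 := by push_cast; ring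
    rw [e5]
    show ((n : ℝ) + 2) * JJ 1 (hh (n + 2) * hh (n + 2)) = _
    rw [e2]
    linarith

lemma JJ1_val (n : ℕ) : JJ 1 (hh n * hh n) = Real.sqrt π * (2 ^ n / (n.factorial : ℝ)) := by
  induction n with
  | zero =>
    have : hh 0 = 1 := rfl
    rw [this]
    have h := integral_gaussian 1
    simp only [div_one] at h
    simp only [JJ, one_mul, eval_one, pow_zero, Nat.factorial_zero, Nat.cast_one, div_one, mul_one]
    exact h
  | succ n ih =>
    have h := JJ1_rec n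
    rw [ih] at h
    have h4 : ((n : ℝ) + 1) ≠ 0 := by positivity
    apply mul_left_cancel₀ h4
    rw [h, Nat.factorial_succ]
    push_cast
    have : ((n.factorial : ℕ) : ℝ) ≠ 0 := by positivity
    field_simp
    ring

lemma JJ1_X (n : ℕ) : JJ 1 (X * X * (hh n * hh n)) ≤ (2 * n + 1) * JJ 1 (hh n * hh n) := by
  rcases n with _ | n
  · have e0 : hh 0 = 1 := rfl
    have h2 := stein (b := 1) one_pos (X * 1)
    rw [e0]
    have e1 : (X * X * (1 * 1) : ℝ[X]) = X * (X * 1) := by ring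
    rw [e1]
    have e2 : derivative (X * 1 : ℝ[X]) = 1 := by simp
    rw [e2] at h2
    have h3 : 0 ≤ JJ 1 (1 * 1) := JJ_nonneg (fun x => by simp)
    rw [one_mul] at h3 ⊢
    push_cast
    linarith
  · -- 2 X h_{n+1} = (n+2) h_{n+2} + 2 h_n
    have h1 := hh_rec n
    have hm : JJ 1 (4 * (X * X * (hh (n + 1) * hh (n + 1)))) ≤
        JJ 1 (C (2 * ((n : ℝ) + 2) ^ 2) * (hh (n + 2) * hh (n + 2)) + C 8 * (hh n * hh n)) := by
      apply JJ_mono one_pos
      intro x
      have h2 := congrArg (eval x) h1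
      simp only [eval_mul, eval_sub, eval_add, eval_C, eval_X, eval_ofNat] at h2 ⊢
      have h3 : 2 * x * (hh (n + 1)).eval x = ((n : ℝ) + 2) * (hh (n + 2)).eval x + 2 * (hh n).eval x := by
        linarith
      have h4 : 4 * (x * x * ((hh (n + 1)).eval x * (hh (n + 1)).eval x)) =
          (2 * x * (hh (n + 1)).eval x) ^ 2 := by ring
      rw [h4, h3]
      nlinarith [sq_nonneg (((n : ℝ) + 2) * (hh (n + 2)).eval x - 2 * (hh n).eval x)]
    rw [JJ_four_mul, JJ_add one_pos, JJ_C_mul, JJ_C_mul] at hm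
    have r1 := JJ1_rec (n + 1)
    have r0 := JJ1_rec n
    push_cast at r1 ⊢
    have r1' : ((n : ℝ) + 2) * JJ 1 (hh (n + 2) * hh (n + 2)) = 2 * JJ 1 (hh (n + 1) * hh (n + 1)) := by
      rw [← r1]; ring
    nlinarith

/-- The `L¹` bound. -/
lemma L1_bound (p : ℝ[X]) (hp : 0 < JJ 1 ((1 + X * X) * (p * p))) :
    (∫ x : ℝ, |p.eval x| * Real.exp (-(1 / 2) * x ^ 2)) ^ 2 ≤ π * JJ 1 ((1 + X * X) * (p * p)) := by
  set M := JJ 1 ((1 + X * X) * (p * p)) with hM
  set I := ∫ x : ℝ, |p.eval x| * Real.exp (-(1 / 2) * x ^ 2) with hI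
  have hint : Integrable (fun x : ℝ => |p.eval x| * Real.exp (-(1 / 2) * x ^ 2)) := by
    have := (JJ_integrable (b := 1 / 2) (by norm_num) p).abs
    refine this.congr (ae_of_all _ fun x => ?_)
    simp only [abs_mul, Real.abs_exp]
  have key : ∀ l : ℝ, 0 < l → 2 * I ≤ l * M + l⁻¹ * π := by
    intro l hl
    have h1 : ∫ x : ℝ, 2 * (|p.eval x| * Real.exp (-(1 / 2) * x ^ 2)) ≤
        ∫ x : ℝ, (l * (((1 + X * X) * (p * p)).eval x * Real.exp (-1 * x ^ 2)) + l⁻¹ * (1 + x ^ 2)⁻¹) := by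
      apply integral_mono (hint.const_mul 2)
        (((JJ_integrable one_pos _).const_mul l).add (integrable_inv_one_add_sq.const_mul l⁻¹))
      intro x
      simp only [Pi.add_apply, eval_mul, eval_add, eval_one, eval_X]
      have he : Real.exp (-1 * x ^ 2) = Real.exp (-(1 / 2) * x ^ 2) ^ 2 := by
        rw [← Real.exp_nat_mul]; congr 1; push_cast; ring
      rw [he]
      set e := Real.exp (-(1 / 2) * x ^ 2)
      set y := |p.eval x|
      have hy : p.eval x * p.eval x = y ^ 2 := by rw [pow_two, abs_mul_abs_self]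
      rw [hy]
      have hx : (0 : ℝ) < 1 + x ^ 2 := by positivity
      have h3 : (1 + x * x : ℝ) = 1 + x ^ 2 := by ring
      rw [h3]
      have h4 : 0 ≤ (l * (1 + x ^ 2)) * (y * e - l⁻¹ * (1 + x ^ 2)⁻¹) ^ 2 := by positivity
      have h5 : (l * (1 + x ^ 2)) * (y * e - l⁻¹ * (1 + x ^ 2)⁻¹) ^ 2 =
          l * ((1 + x ^ 2) * y ^ 2 * e ^ 2) - 2 * (y * e) + l⁻¹ * (1 + x ^ 2)⁻¹ := by
        field_simp
        ring
      linarith
    rw [integral_const_mul, integral_add ((JJ_integrable one_pos _).const_mul l)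
      (integrable_inv_one_add_sq.const_mul l⁻¹), integral_const_mul, integral_const_mul,
      integral_univ_inv_one_add_sq] at h1
    exact h1
  have hI0 : 0 ≤ I := integral_nonneg (fun x => mul_nonneg (abs_nonneg _) (Real.exp_pos _).le)
  rcases hI0.eq_or_lt with h0 | h0
  · rw [← h0]
    have : 0 ≤ π * M := by positivity
    simpa using this
  · have h2 := key (I / M) (by positivity)
    have h3 : I / M * M = I := by field_simp
    have h4 : (I / M)⁻¹ * π = M * π / I := by field_simp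
    rw [h3, h4] at h2
    have h5 : I ≤ M * π / I := by linarith
    rw [le_div_iff₀ h0] at h5
    nlinarith

end

end Pool.Agent.Helper228.HC
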