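import Mathlib
import Pool.Agent.Helper228.HC.Lower3
import Pool.Agent.Helper228.HC.Lower5

open MeasureTheory ProbabilityTheory Filter Topology Real Polynomial

namespace Pool.Agent.Helper228.HC

noncomputable section

lemma gauss_integral (g : ℝ → ℝ) :
    ∫ x, g x ∂(gaussianReal 0 1) = (Real.sqrt (2 * π))⁻¹ * ∫ x : ℝ, g x * Real.exp (-(1 / 2) * x ^ 2) := by
  rw [integral_gaussianReal_eq_integral_smul (by norm_num), ← integral_const_mul]
  congr 1
  funext x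
  rw [gaussianPDFReal, smul_eq_mul]
  simp only [NNReal.coe_one, mul_one, sub_zero]
  have : -x ^ 2 / 2 = -(1 / 2) * x ^ 2 := by ring
  rw [this]; ring

lemma gauss_poly (q : ℝ[X]) :
    ∫ x, q.eval x ∂(gaussianReal 0 1) = (Real.sqrt (2 * π))⁻¹ * JJ (1 / 2) q := by
  rw [gauss_integral]; rfl

/-- Gaussian expectation of a polynomial. -/
def EE (q : ℝ[X]) : ℝ := ∫ x, q.eval x ∂(gaussianReal 0 1)

lemma EE_eq (q : ℝ[X]) : EE q = (Real.sqrt (2 * π))⁻¹ * JJ (1 / 2) q := gauss_poly q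

lemma EE_one : EE 1 = 1 := by simp [EE]

lemma EE_ss (k : ℕ) : EE (ss (2 * k)) = 6 ^ k / (k.factorial : ℝ) := by
  rw [EE_eq, JJ_half_ss, ← mul_assoc, ← EE_eq, EE_one, one_mul]

lemma EE_L1 (n : ℕ) : (∫ x, |(hh n).eval x| ∂(gaussianReal 0 1)) ^ 2 ≤
    2 * ((n : ℝ) + 1) * (2 ^ n / (n.factorial : ℝ)) := by
  have h1 : JJ 1 ((1 + X * X) * (hh n * hh n)) ≤ (2 * (n : ℝ) + 2) * JJ 1 (hh n * hh n) := by
    have := JJ1_X n
    rw [add_mul, one_mul, JJ_add one_pos]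
    linarith
  have h0 : 0 < JJ 1 (hh n * hh n) := by rw [JJ1_val]; positivity
  have h2 : 0 < JJ 1 ((1 + X * X) * (hh n * hh n)) := by
    rw [add_mul, one_mul, JJ_add one_pos]
    have : 0 ≤ JJ 1 (X * X * (hh n * hh n)) := by
      apply JJ_nonneg
      intro x
      simp only [eval_mul, eval_X]
      exact mul_nonneg (mul_self_nonneg _) (mul_self_nonneg _)
    linarith
  have h3 := L1_bound (hh n) h2
  rw [gauss_integral, mul_pow, inv_pow, Real.sq_sqrt (by positivity)]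
  have h4 : (∫ x : ℝ, |(hh n).eval x| * Real.exp (-(1 / 2) * x ^ 2)) ^ 2 ≤
      π * ((2 * (n : ℝ) + 2) * (Real.sqrt π * (2 ^ n / (n.factorial : ℝ)))) := by
    apply h3.trans
    apply mul_le_mul_of_nonneg_left _ Real.pi_pos.le
    rw [← JJ1_val]; exact h1
  have h5 : Real.sqrt π ≤ 2 := by
    rw [Real.sqrt_le_left (by norm_num)]
    have := Real.pi_lt_four
    linarith
  calc (2 * π)⁻¹ * (∫ x : ℝ, |(hh n).eval x| * Real.exp (-(1 / 2) * x ^ 2)) ^ 2
      ≤ (2 * π)⁻¹ * (π * ((2 * (n : ℝ) + 2) * (Real.sqrt π * (2 ^ n / (n.factorial : ℝ))))) :=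
        mul_le_mul_of_nonneg_left h4 (by positivity)
    _ = ((n : ℝ) + 1) * (2 ^ n / (n.factorial : ℝ)) * Real.sqrt π := by field_simp
    _ ≤ ((n : ℝ) + 1) * (2 ^ n / (n.factorial : ℝ)) * 2 :=
        mul_le_mul_of_nonneg_left h5 (by positivity)
    _ = _ := by ring

lemma EE_add (p q : ℝ[X]) : EE (p + q) = EE p + EE q := by
  rw [EE_eq, EE_eq, EE_eq, JJ_add (by norm_num)]; ring

lemma EE_C_mul (c : ℝ) (p : ℝ[X]) : EE (C c * p) = c * EE p := by
  rw [EE_eq, EE_eq, JJ_C_mul]; ring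

lemma EE_nonneg {q : ℝ[X]} (h : ∀ x, 0 ≤ q.eval x) : 0 ≤ EE q := integral_nonneg h

lemma EE_sum {ι : Type*} (T : Finset ι) (f : ι → ℝ[X]) : EE (∑ i ∈ T, f i) = ∑ i ∈ T, EE (f i) := by
  rw [EE_eq, JJ_sum (by norm_num), Finset.mul_sum]
  apply Finset.sum_congr rfl
  intro i _
  rw [EE_eq]

lemma EE_cs {p q : ℝ[X]} {a b : ℝ} (ha : 0 < a) (hb : 0 < b) (hp : EE (p * p) ≤ a ^ 2) (hq : EE (q * q) ≤ b ^ 2) :
    EE (p * q) ≤ a * b := by
  have h : 0 ≤ EE ((C b * p - C a * q) * (C b * p - C a * q)) :=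
    EE_nonneg (fun x => by rw [eval_mul]; exact mul_self_nonneg _)
  have e : (C b * p - C a * q) * (C b * p - C a * q) =
      C (b ^ 2) * (p * p) + (C (-(2 * a * b)) * (p * q) + C (a ^ 2) * (q * q)) := by
    simp only [C_neg, C_mul, C_pow, C_ofNat]
    ring
  rw [e, EE_add, EE_add, EE_C_mul, EE_C_mul, EE_C_mul] at h
  have h2 : 2 * a * b * EE (p * q) ≤ 2 * a * b * (a * b) := by
    nlinarith [mul_le_mul_of_nonneg_left hp (sq_nonneg b), mul_le_mul_of_nonneg_left hq (sq_nonneg a)]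
  exact le_of_mul_le_mul_left h2 (by positivity)

theorem lower_main {K : ℝ} (hK1 : 1 ≤ K)
    (h : ∀ n : ℕ, 1 ≤ n → ∀ f : Cube n → ℝ, lpNorm 2 f ≤ K ^ degree f * lpNorm 1 f) (k : ℕ) :
    (9 : ℝ) ^ k ≤ 4 * (2 * (k : ℝ) + 1) ^ 5 * (K ^ 4) ^ k := by
  have hK0 : 0 < K := by linarith
  -- second moments
  have h2 : ∀ n : ℕ, EE (hh n * hh n) ≤ 2 * ((n : ℝ) + 1) * ((2 * K ^ 2) ^ n / (n.factorial : ℝ)) := by
    intro n
    have h1 := transfer hK1 h (hh n)
    have h3 := EE_L1 n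
    have e1 : EE (hh n * hh n) = ∫ x, (hh n).eval x ^ 2 ∂(gaussianReal 0 1) := by
      unfold EE
      congr 1
      funext x
      rw [eval_mul, pow_two]
    rw [e1]
    calc ∫ x, (hh n).eval x ^ 2 ∂(gaussianReal 0 1) ≤ _ := h1
      _ ≤ K ^ (2 * n) * (2 * ((n : ℝ) + 1) * (2 ^ n / (n.factorial : ℝ))) := by
        apply mul_le_mul _ h3 (sq_nonneg _) (by positivity)
        apply pow_le_pow_right₀ hK1
        have := hh_natDegree n
        omega
      _ = _ := by rw [mul_pow, pow_mul]; ring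
  -- the uniform bound for the products
  set M : ℝ := 4 * (2 * (k : ℝ) + 1) ^ 2 * ((2 * K ^ 2) ^ (2 * k) * 4 ^ k / ((2 * k).factorial : ℝ)) with hM
  have hM0 : 0 < M := by rw [hM]; positivity
  have h3 : ∀ ij ∈ Finset.HasAntidiagonal.antidiagonal (2 * k), EE (hh ij.1 * hh ij.2) ≤ Real.sqrt M := by
    intro ij hij
    rw [Finset.HasAntidiagonal.mem_antidiagonal] at hij
    obtain ⟨i, j⟩ := ij
    simp only at hij ⊢
    set Di : ℝ := 2 * ((i : ℝ) + 1) * ((2 * K ^ 2) ^ i / (i.factorial : ℝ)) with hDi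
    set Dj : ℝ := 2 * ((j : ℝ) + 1) * ((2 * K ^ 2) ^ j / (j.factorial : ℝ)) with hDj
    have hDi0 : 0 < Di := by rw [hDi]; positivity
    have hDj0 : 0 < Dj := by rw [hDj]; positivity
    have h4 : EE (hh i * hh j) ≤ Real.sqrt Di * Real.sqrt Dj := by
      apply EE_cs (Real.sqrt_pos.2 hDi0) (Real.sqrt_pos.2 hDj0)
      · rw [Real.sq_sqrt hDi0.le]; exact h2 i
      · rw [Real.sq_sqrt hDj0.le]; exact h2 j
    rw [← Real.sqrt_mul hDi0.le] at h4
    apply h4.trans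
    apply Real.sqrt_le_sqrt
    have e1 : Di * Dj = 4 * (((i : ℝ) + 1) * ((j : ℝ) + 1)) *
        ((2 * K ^ 2) ^ (2 * k) * (1 / ((i.factorial : ℝ) * (j.factorial : ℝ)))) := by
      rw [hDi, hDj, ← hij, pow_add]
      field_simp
      ring
    have e2 : 1 / ((i.factorial : ℝ) * (j.factorial : ℝ)) ≤ 4 ^ k / ((2 * k).factorial : ℝ) := by
      have c1 := Nat.add_choose_mul_factorial_mul_factorial i j
      have c2 := Nat.choose_le_two_pow (2 * k) j
      rw [← hij] at c2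
      have c3 : ((i + j).factorial : ℝ) ≤ 4 ^ k * ((i.factorial : ℝ) * (j.factorial : ℝ)) := by
        have c4 : ((i + j).factorial : ℝ) = ((i + j).choose j : ℝ) * (i.factorial : ℝ) * (j.factorial : ℝ) := by
          exact_mod_cast c1.symm
        have c5 : (((i + j).choose j : ℕ) : ℝ) ≤ 4 ^ k := by
          have : (4 : ℝ) ^ k = 2 ^ (i + j) := by
            rw [hij, pow_mul]; norm_num
          rw [this]
          exact_mod_cast c2
        rw [c4, mul_assoc]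
        exact mul_le_mul_of_nonneg_right c5 (by positivity)
      rw [hij] at c3
      rw [div_le_div_iff₀ (by positivity) (by positivity), one_mul]
      exact c3
    have e3 : ((i : ℝ) + 1) * ((j : ℝ) + 1) ≤ (2 * (k : ℝ) + 1) ^ 2 := by
      have c1 : (i : ℝ) ≤ 2 * k := by
        have : i ≤ 2 * k := by omega
        exact_mod_cast this
      have c2 : (j : ℝ) ≤ 2 * k := by
        have : j ≤ 2 * k := by omega
        exact_mod_cast this
      have c3 : (0 : ℝ) ≤ i := by positivity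
      have c4 : (0 : ℝ) ≤ j := by positivity
      nlinarith
    rw [e1, hM, mul_div_assoc]
    apply mul_le_mul
    · linarith
    · exact mul_le_mul_of_nonneg_left e2 (by positivity)
    · positivity
    · positivity
  have h4 : (6 : ℝ) ^ k / (k.factorial : ℝ) ≤ (2 * (k : ℝ) + 1) * Real.sqrt M := by
    rw [← EE_ss, ss, EE_sum]
    calc _ ≤ ∑ ij ∈ Finset.HasAntidiagonal.antidiagonal (2 * k), Real.sqrt M := Finset.sum_le_sum h3
      _ = _ := by
        rw [Finset.sum_const, Finset.Nat.card_antidiagonal, nsmul_eq_mul]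
        push_cast; ring
  have h5 : ((6 : ℝ) ^ k / (k.factorial : ℝ)) ^ 2 ≤ (2 * (k : ℝ) + 1) ^ 2 * M := by
    calc _ ≤ ((2 * (k : ℝ) + 1) * Real.sqrt M) ^ 2 := pow_le_pow_left₀ (by positivity) h4 2
      _ = _ := by rw [mul_pow, Real.sq_sqrt hM0.le]
  -- central binomial
  have h6 : (4 : ℝ) ^ k * (k.factorial : ℝ) ^ 2 ≤ (2 * (k : ℝ) + 1) * ((2 * k).factorial : ℝ) := by
    have c1 : 4 ^ k ≤ (2 * k + 1) * k.centralBinom := by
      rcases Nat.eq_zero_or_pos k with rfl | hk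
      · simp
      · have := Nat.four_pow_le_two_mul_self_mul_centralBinom k hk
        nlinarith [Nat.centralBinom_pos k]
    have c2 : k.centralBinom * (k.factorial * k.factorial) = (2 * k).factorial := by
      have := Nat.add_choose_mul_factorial_mul_factorial k k
      rw [← two_mul] at this
      rw [Nat.centralBinom, ← mul_assoc]; exact this
    have c3 : ((4 : ℝ)) ^ k ≤ (2 * (k : ℝ) + 1) * (k.centralBinom : ℝ) := by exact_mod_cast c1
    have c4 : ((k.centralBinom : ℝ)) * ((k.factorial : ℝ) * (k.factorial : ℝ)) = ((2 * k).factorial : ℝ) := by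
      exact_mod_cast c2
    calc (4 : ℝ) ^ k * (k.factorial : ℝ) ^ 2 ≤ (2 * (k : ℝ) + 1) * (k.centralBinom : ℝ) * (k.factorial : ℝ) ^ 2 :=
          mul_le_mul_of_nonneg_right c3 (by positivity)
      _ = _ := by rw [← c4]; ring
  -- combine
  have hf : (0 : ℝ) < (k.factorial : ℝ) := by positivity
  have hg : (0 : ℝ) < ((2 * k).factorial : ℝ) := by positivity
  rw [hM, div_pow] at h5
  rw [div_le_iff₀ (by positivity)] at h5
  have h7 : (6 ^ k : ℝ) ^ 2 * ((2 * k).factorial : ℝ) ≤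
      4 * (2 * (k : ℝ) + 1) ^ 4 * ((2 * K ^ 2) ^ (2 * k) * 4 ^ k) * (k.factorial : ℝ) ^ 2 := by
    have := mul_le_mul_of_nonneg_right h5 hg.le
    calc _ ≤ _ := this
      _ = _ := by field_simp
  have h8 : (6 ^ k : ℝ) ^ 2 * (4 ^ k * (k.factorial : ℝ) ^ 2) ≤
      4 * (2 * (k : ℝ) + 1) ^ 5 * ((2 * K ^ 2) ^ (2 * k) * 4 ^ k) * (k.factorial : ℝ) ^ 2 := by
    calc _ ≤ (6 ^ k : ℝ) ^ 2 * ((2 * (k : ℝ) + 1) * ((2 * k).factorial : ℝ)) :=
          mul_le_mul_of_nonneg_left h6 (by positivity)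
      _ = (2 * (k : ℝ) + 1) * ((6 ^ k : ℝ) ^ 2 * ((2 * k).factorial : ℝ)) := by ring
      _ ≤ (2 * (k : ℝ) + 1) * _ := mul_le_mul_of_nonneg_left h7 (by positivity)
      _ = _ := by ring
  have h9 : (6 ^ k : ℝ) ^ 2 * (4 ^ k * (k.factorial : ℝ) ^ 2) = 9 ^ k * (4 ^ k * 4 ^ k * (k.factorial : ℝ) ^ 2) := by
    have : (6 : ℝ) ^ k = 2 ^ k * 3 ^ k := by rw [← mul_pow]; norm_num
    rw [this]
    have a1 : (9 : ℝ) ^ k = 3 ^ k * 3 ^ k := by rw [← mul_pow]; norm_num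
    have a2 : (4 : ℝ) ^ k = 2 ^ k * 2 ^ k := by rw [← mul_pow]; norm_num
    rw [a1, a2]; ring
  have h10 : (2 * K ^ 2) ^ (2 * k) = 4 ^ k * (K ^ 4) ^ k := by
    have a1 : (2 * K ^ 2) ^ (2 * k) = ((2 * K ^ 2) ^ 2) ^ k := by rw [pow_mul]
    have a2 : (2 * K ^ 2) ^ 2 = 4 * K ^ 4 := by ring
    rw [a1, a2, mul_pow]
  rw [h9, h10] at h8
  have h11 : (0 : ℝ) < 4 ^ k * 4 ^ k * (k.factorial : ℝ) ^ 2 := by positivity
  apply le_of_mul_le_mul_right _ h11
  calc _ ≤ _ := h8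
    _ = _ := by ring

theorem lower_bound {K : ℝ} (hK1 : 1 ≤ K)
    (h : ∀ n : ℕ, 1 ≤ n → ∀ f : Cube n → ℝ, lpNorm 2 f ≤ K ^ degree f * lpNorm 1 f) :
    Real.sqrt 3 ≤ K := by
  by_contra hc
  push Not at hc
  have hK0 : 0 < K := by linarith
  have h1 : K ^ 2 < 3 := by
    have := (Real.lt_sqrt hK0.le).1 hc
    exact this
  have h2 : K ^ 4 < 9 := by nlinarith [sq_nonneg K]
  set r := K ^ 4 / 9 with hr
  have hr0 : 0 ≤ r := by positivity
  have hr1 : r < 1 := by rw [hr, div_lt_one (by norm_num)]; exact h2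
  have h3 : ∀ k : ℕ, 1 ≤ k → (1 : ℝ) ≤ 972 * ((k : ℝ) ^ 5 * r ^ k) := by
    intro k hk
    have h4 := lower_main hK1 h k
    have hk1 : (1 : ℝ) ≤ k := by exact_mod_cast hk
    have h5 : (2 * (k : ℝ) + 1) ^ 5 ≤ (3 * (k : ℝ)) ^ 5 := pow_le_pow_left₀ (by positivity) (by linarith) 5
    have h6 : (K ^ 4) ^ k = 9 ^ k * r ^ k := by
      rw [← mul_pow, hr]
      congr 1
      field_simp
    rw [h6] at h4
    have h7 : (9 : ℝ) ^ k ≤ 972 * ((k : ℝ) ^ 5 * r ^ k) * 9 ^ k := by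
      calc (9 : ℝ) ^ k ≤ _ := h4
        _ ≤ 4 * (3 * (k : ℝ)) ^ 5 * (9 ^ k * r ^ k) := by
          apply mul_le_mul_of_nonneg_right _ (by positivity)
          linarith
        _ = _ := by ring
    have h8 : (0 : ℝ) < 9 ^ k := by positivity
    nlinarith
  have h4 := (tendsto_pow_const_mul_const_pow_of_abs_lt_one 5 (by rw [abs_of_nonneg hr0]; exact hr1 : |r| < 1)).const_mul 972
  rw [mul_zero] at h4
  have h5 := (h4.eventually (gt_mem_nhds (zero_lt_one (α := ℝ)))).and (eventually_ge_atTop 1)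
  obtain ⟨k, hk, hk1⟩ := h5.exists
  have := h3 k hk1
  linarith

end

end Pool.Agent.Helper228.HC
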